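import Pool.Agent.Helper879.ECD.Flow

set_option autoImplicit false
set_option linter.unusedSectionVars false

/-!
Contraction of cuts with two edges for families of even sets.
-/

namespace Pool.Agent.K4H75.EC

open Finset
open Pool.Agent.Helper879.ECD (F2 IsFlow cn f2_add_self)

variable {W E : Type} [Fintype W] [DecidableEq W] [Fintype E] [DecidableEq E]

lemma cn_comp (a b : E → W) (ρ : W → W) (M : Finset E) (Y : Finset W) :
    cn (fun e => ρ (a e)) (fun e => ρ (b e)) M Y = cn a b M (univ.filter (fun w => ρ w ∈ Y)) := by
  unfold cn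
  congr 1
  apply Finset.filter_congr
  intro e _
  simp

lemma isFlow_comp {a b : E → W} (ρ : W → W) {ψ : E → F2} (h : IsFlow a b ψ) :
    IsFlow (fun e => ρ (a e)) (fun e => ρ (b e)) ψ := by
  intro c
  exact h (fun w => c (ρ w))

/-- lifting a family of flows through the contraction of cuts with two edges -/
theorem reduce {ι : Type} [Fintype ι] (q : E → ℕ) (Hyp : (E → W) → (E → W) → Prop)
    (hst : ∀ (a b : E → W) (ρ : W → W), Hyp a b → Hyp (fun e => ρ (a e)) (fun e => ρ (b e)))
    (h1 : ∀ a b, Hyp a b → ∀ X : Finset W, cn a b univ X ≠ 1)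
    (h2 : ∀ a b, Hyp a b → ∀ (X : Finset W) (f g : E), f ≠ g →
      (∀ e, ¬ (a e ∈ X ↔ b e ∈ X) ↔ (e = f ∨ e = g)) → q f = q g)
    (hbase : ∀ a b, Hyp a b → (∀ X : Finset W, cn a b univ X = 0 ∨ 3 ≤ cn a b univ X) →
      ∃ Y : ι → E → F2, (∀ i, IsFlow a b (Y i)) ∧
        ∀ e, (univ.filter (fun i => Y i e = 1)).card = q e) :
    ∀ (n : ℕ) (a b : E → W), (univ.filter (fun e => a e ≠ b e)).card = n → Hyp a b →
      ∃ Y : ι → E → F2, (∀ i, IsFlow a b (Y i)) ∧
        ∀ e, (univ.filter (fun i => Y i e = 1)).card = q e := by
  intro n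
  induction n using Nat.strong_induction_on with
  | _ n ih =>
  intro a b hn hab
  by_cases h4 : ∀ X : Finset W, cn a b univ X = 0 ∨ 3 ≤ cn a b univ X
  · exact hbase a b hab h4
  · push Not at h4
    obtain ⟨X, hX0, hX4⟩ := h4
    have hX := h1 a b hab X
    have hX2 : cn a b univ X = 2 := by omega
    unfold cn at hX2
    obtain ⟨f, g, hfg, hset⟩ := Finset.card_eq_two.1 hX2
    have hmem : ∀ e, ¬ (a e ∈ X ↔ b e ∈ X) ↔ (e = f ∨ e = g) := by
      intro e
      have : e ∈ univ.filter (fun e => ¬ (a e ∈ X ↔ b e ∈ X)) ↔ e ∈ ({f, g} : Finset E) := by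
        rw [hset]
      simpa using this
    have hfne : a f ≠ b f := by
      intro h
      exact (hmem f).2 (Or.inl rfl) (by rw [h])
    let ρ : W → W := fun w => if w = b f then a f else w
    have hlt : (univ.filter (fun e => ρ (a e) ≠ ρ (b e))).card < n := by
      rw [← hn]
      apply Finset.card_lt_card
      rw [Finset.ssubset_iff_of_subset]
      · refine ⟨f, ?_, ?_⟩
        · rw [Finset.mem_filter]; exact ⟨Finset.mem_univ _, hfne⟩
        · rw [Finset.mem_filter]
          rintro ⟨_, h⟩
          apply h
          simp [ρ, hfne]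
      · intro e he
        rw [Finset.mem_filter] at he ⊢
        refine ⟨Finset.mem_univ _, fun h => he.2 (by rw [h])⟩
    obtain ⟨φ, hf, hcount⟩ := ih _ hlt (fun e => ρ (a e)) (fun e => ρ (b e)) rfl (hst a b ρ hab)
    have key : ∀ φ : E → F2, IsFlow (fun e => ρ (a e)) (fun e => ρ (b e)) φ →
        ∃ ψ : E → F2, IsFlow a b ψ ∧ (∀ e, e ≠ f → ψ e = φ e) ∧ ψ f = φ g := by
      intro φ hφ
      let δ : W → F2 := fun w => if w = b f then 1 else 0
      let l : F2 := ∑ e ∈ univ.erase f, φ e * (δ (a e) + δ (b e))
      let ψ : E → F2 := fun e => if e = f then l else φ e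
      have hψf : ψ f = l := if_pos rfl
      have hψne : ∀ e, e ≠ f → ψ e = φ e := fun e he => if_neg he
      have hflow : IsFlow a b ψ := by
        intro c
        let c' : W → F2 := fun w => c (ρ w)
        have hcc : ∀ w, c w = c' w + (c (a f) + c (b f)) * δ w := by
          intro w
          by_cases hw : w = b f
          · simp only [c', ρ, δ, hw, if_true, mul_one]
            rw [← add_assoc, f2_add_self, zero_add]
          · simp only [c', ρ, δ, hw, if_false, mul_zero, add_zero]
        have h1 : ∑ e, ψ e * (c (a e) + c (b e)) =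
            ∑ e, ψ e * (c' (a e) + c' (b e)) +
              (c (a f) + c (b f)) * ∑ e, ψ e * (δ (a e) + δ (b e)) := by
          rw [Finset.mul_sum, ← Finset.sum_add_distrib]
          apply Finset.sum_congr rfl
          intro e _
          rw [hcc (a e), hcc (b e)]
          ring
        have h2 : ∑ e, ψ e * (c' (a e) + c' (b e)) = 0 := by
          have h3 := hφ c
          rw [← h3]
          apply Finset.sum_congr rfl
          intro e _
          by_cases he : e = f
          · rw [he]
            have h4 : c' (a f) + c' (b f) = 0 := by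
              simp only [c', ρ, hfne, if_false, if_true]
              exact f2_add_self _
            have h5 : c (ρ (a f)) + c (ρ (b f)) = 0 := h4
            rw [h4, mul_zero, mul_zero]
          · rw [hψne e he]
        have h3 : ∑ e, ψ e * (δ (a e) + δ (b e)) = 0 := by
          rw [← Finset.add_sum_erase univ _ (Finset.mem_univ f), hψf]
          have h4 : ∑ e ∈ univ.erase f, ψ e * (δ (a e) + δ (b e)) = l := by
            apply Finset.sum_congr rfl
            intro e he
            rw [hψne e (Finset.ne_of_mem_erase he)]
          rw [h4]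
          have h5 : δ (a f) + δ (b f) = 1 := by simp [δ, hfne]
          rw [h5, mul_one]
          exact f2_add_self _
        rw [h1, h2, h3, mul_zero, add_zero]
      refine ⟨ψ, hflow, hψne, ?_⟩
      -- the two edges of the cut carry the same value
      have h1 := hflow (fun w => if w ∈ X then 1 else 0)
      have h2 : ∀ e ∈ (univ : Finset E), ψ e * ((if a e ∈ X then (1 : F2) else 0) +
          (if b e ∈ X then 1 else 0)) = if (e = f ∨ e = g) then ψ e else 0 := by
        intro e _
        by_cases he : (e = f ∨ e = g)
        · rw [if_pos he]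
          have := (hmem e).2 he
          by_cases h3 : a e ∈ X
          · have h4 : b e ∉ X := fun h4 => this ⟨fun _ => h4, fun _ => h3⟩
            simp [h3, h4]
          · have h4 : b e ∈ X := by
              by_contra h4; exact this ⟨fun h => absurd h h3, fun h => absurd h h4⟩
            simp [h3, h4]
        · rw [if_neg he]
          have := not_not.1 (fun h => he ((hmem e).1 h))
          by_cases h3 : a e ∈ X
          · have h4 := this.1 h3
            simp only [h3, h4, if_true]
            rw [f2_add_self, mul_zero]
          · have h4 : b e ∉ X := fun h => h3 (this.2 h)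
            simp [h3, h4]
      rw [Finset.sum_congr rfl h2, ← Finset.sum_filter] at h1
      have h3 : univ.filter (fun e => e = f ∨ e = g) = {f, g} := by
        ext e; simp
      rw [h3, Finset.sum_pair hfg, hψne g (Ne.symm hfg)] at h1
      calc ψ f = ψ f + (φ g + φ g) := by rw [f2_add_self, add_zero]
        _ = (ψ f + φ g) + φ g := by ring
        _ = φ g := by rw [h1, zero_add]
    choose ψ k1 k2 k3 using fun i => key (φ i) (hf i)
    refine ⟨ψ, k1, ?_⟩
    intro e
    by_cases he : e = f
    · rw [he, h2 a b hab X f g hfg hmem, ← hcount g]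
      congr 1
      apply Finset.filter_congr
      intro i _
      rw [k3]
    · rw [← hcount e]
      congr 1
      apply Finset.filter_congr
      intro i _
      rw [k2 i e he]

end Pool.Agent.K4H75.EC
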