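import Pool.Agent.K4H75.EC.RankC
import Pool.Agent.K4H75.EC.Reduce
import Pool.Agent.TH399.CC.Block

set_option autoImplicit false
set_option linter.unusedSectionVars false

/-!
The families of even sets.
-/

namespace Pool.Agent.K4H75.EC

open Finset
open Pool.Agent.Helper879.ECD (sp Ind sp_mono mem_sp F2 IsFlow inc fnl fnl_single fnl_inc cn
  f2_add_self f2_cases exists_coeff)
open Pool.Agent.TH399.CC (isFlow_add isFlow_smul)

abbrev F8 := F2 × F2 × F2

/-- eight sets, outside `C` -/
lemma tabA1 : ∀ x y w0 w1 : F2, (x ≠ 0 ∨ y ≠ 0 ∨ (w0 = 1 ∧ w1 = 0)) →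
    ((univ : Finset F8).filter
      (fun t => (if t.1 = 0 then w0 else w1) + t.2.1 * x + t.2.2 * y + t.2.1 * t.2.2 * 0 = 1)).card
      = 4 := by
  decide +kernel

/-- eight sets, on `C` -/
lemma tabA2 : ∀ x y : F2, ∀ s : Fin 3, ∃ w0 w1 : F2,
    ((univ : Finset F8).filter
      (fun t => (if t.1 = 0 then w0 else w1) + t.2.1 * x + t.2.2 * y + t.2.1 * t.2.2 * 1 = 1)).card
      = 2 * (s.val + 1) := by
  decide +kernel

/-- index of a nonzero vector -/
def ix (v : F8) : ℕ := (if v.1 = 1 then 4 else 0) + (if v.2.1 = 1 then 2 else 0) +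
  (if v.2.2 = 1 then 1 else 0)

/-- the table -/
def om (s : ℕ) (v : F8) : F2 :=
  if v = 0 then (if 8 ≤ s then 1 else 0) else
    (1 + v.1 + v.2.1 + v.2.2) + (if ix v ≤ (if 8 ≤ s then s - 3 else s) then 1 else 0)

lemma tabB1 : ∀ x y z : F2, (x ≠ 0 ∨ y ≠ 0 ∨ z ≠ 0) → ∀ w : F2,
    ((univ : Finset F8).filter
      (fun t => w + t.1 * x + t.2.1 * y + t.2.2 * z = 1)).card = 4 := by
  decide +kernel

lemma tabB2 : ∀ s : Fin 11,
    ∑ v : F8, ((univ : Finset F8).filter
      (fun t => om s.val v + t.1 * v.1 + t.2.1 * v.2.1 + t.2.2 * v.2.2 +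
        t.1 * t.2.1 * t.2.2 = 1)).card = 22 + 2 * s.val := by
  decide +kernel

lemma card_prod (f : F8 × F8 → F2) (g : F8 → ℕ)
    (h : ∀ v, (univ.filter (fun u => f (v, u) = 1)).card = g v) :
    (univ.filter (fun i => f i = 1)).card = ∑ v, g v := by
  rw [Finset.card_filter, Fintype.sum_prod_type]
  apply Finset.sum_congr rfl
  intro v _
  rw [← h v, Finset.card_filter]

variable {W E : Type} [Fintype W] [DecidableEq W] [Fintype E] [DecidableEq E]

/-- the family of eight sets for a connected set `C` -/
theorem family_one (a b : E → W) (C : Finset E) (e0 : E) (he0 : e0 ∈ C)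
    (hC : IsFlow a b (fun e => if e ∈ C then 1 else 0))
    (hconn : ∀ e ∈ C, rel (sp F2 (inc a b) C) (a e) (a e0))
    (h1 : ∀ X : Finset W, cn a b univ X ≠ 0 → cn a b (univ \ C) X ≠ 0)
    (h3 : ∀ X : Finset W, cn a b univ X = 0 ∨ 3 ≤ cn a b univ X) (s : E → Fin 3) :
    ∃ Y : F8 → E → F2, (∀ i, IsFlow a b (Y i)) ∧
      ∀ e, (univ.filter (fun i => Y i e = 1)).card =
        if e ∈ C then 2 * ((s e).val + 1) else 4 := by
  classical
  obtain ⟨J0, J, k1, k2, k3, k5⟩ := trees_one a b C e0 he0 hconn h1 h3
  choose A hA1 hA2 using fun i => flow_ext a b (J i ∪ C) (fun _ => 1) (fun e _ => k3 i e)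
  choose w0 w1 hw using fun e => tabA2 (A 0 e) (A 1 e) (s e)
  obtain ⟨b0, hb0, hb0'⟩ := flow_ext a b J0 (fun e => if e ∈ C then w0 e else 1)
    (fun e _ => k2 e)
  obtain ⟨b1, hb1, hb1'⟩ := flow_ext a b J0 (fun e => if e ∈ C then w1 e else 0)
    (fun e _ => k2 e)
  refine ⟨fun t e => (if t.1 = 0 then b0 e else b1 e) + t.2.1 * A 0 e + t.2.2 * A 1 e +
    t.2.1 * t.2.2 * (if e ∈ C then 1 else 0), ?_, ?_⟩
  · intro t
    refine isFlow_add (isFlow_add (isFlow_add ?_ (isFlow_smul _ (hA1 0))) (isFlow_smul _ (hA1 1)))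
      (isFlow_smul _ hC)
    by_cases h : t.1 = 0
    · simp only [h, if_true]; exact hb0
    · simp only [h, if_false]; exact hb1
  · intro e
    by_cases he : e ∈ C
    · have hJ : e ∉ J0 := fun h => k1 e h he
      have e0' := hb0' e hJ
      have e1' := hb1' e hJ
      simp only [he, if_true] at e0' e1'
      simp only [he, if_true, e0', e1']
      exact hw e
    · simp only [he, if_false]
      apply tabA1
      by_contra hcon
      push Not at hcon
      obtain ⟨z0, z1, z2⟩ := hcon
      have m0 : e ∈ J 0 := by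
        by_contra h
        have := hA2 0 e (by rw [Finset.mem_union]; tauto)
        rw [z0] at this
        exact absurd this (by decide)
      have m1 : e ∈ J 1 := by
        by_contra h
        have := hA2 1 e (by rw [Finset.mem_union]; tauto)
        rw [z1] at this
        exact absurd this (by decide)
      have hJ : e ∉ J0 := by
        intro h
        obtain ⟨i, hi⟩ := k5 e h
        fin_cases i
        · exact hi m0
        · exact hi m1
      have e0' := hb0' e hJ
      have e1' := hb1' e hJ
      simp only [he, if_false] at e0' e1'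
      exact z2 e0' e1'

/-- the family of sixty-four sets for an arbitrary even set `D` -/
theorem family_three (a b : E → W) (D : Finset E)
    (hD : IsFlow a b (fun e => if e ∈ D then 1 else 0))
    (h1 : ∀ X : Finset W, cn a b univ X ≠ 0 → cn a b (univ \ D) X ≠ 0)
    (h3 : ∀ X : Finset W, cn a b univ X = 0 ∨ 3 ≤ cn a b univ X) (s : E → Fin 11) :
    ∃ Y : F8 × F8 → E → F2, (∀ i, IsFlow a b (Y i)) ∧
      ∀ e, (univ.filter (fun i => Y i e = 1)).card =
        if e ∈ D then 22 + 2 * (s e).val else 32 := by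
  classical
  obtain ⟨J0, J, k1, k2, k3, k5⟩ := trees_three a b D h1 h3
  choose A hA1 hA2 using fun i => flow_ext a b (J i ∪ D) (fun _ => 1) (fun e _ => k3 i e)
  choose B hB hB' using fun v : F8 => flow_ext a b J0
    (fun e => if e ∈ D then om (s e).val (v + (A 0 e, A 1 e, A 2 e)) else v.1)
    (fun e _ => k2 e)
  refine ⟨fun t e => B t.1 e + t.2.1 * A 0 e + t.2.2.1 * A 1 e + t.2.2.2 * A 2 e +
    (t.2.1 * t.1.1 + t.2.2.1 * t.1.2.1 + t.2.2.2 * t.1.2.2 + t.2.1 * t.2.2.1 * t.2.2.2) *
      (if e ∈ D then 1 else 0), ?_, ?_⟩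
  · intro t
    exact isFlow_add (isFlow_add (isFlow_add (isFlow_add (hB _) (isFlow_smul _ (hA1 0)))
      (isFlow_smul _ (hA1 1))) (isFlow_smul _ (hA1 2))) (isFlow_smul _ hD)
  · intro e
    by_cases he : e ∈ D
    · have hJ : e ∉ J0 := fun h => k1 e h he
      have e0 : ∀ v, B v e = om (s e).val (v + (A 0 e, A 1 e, A 2 e)) := by
        intro v
        have := hB' v e hJ
        simpa only [he, if_true] using this
      rw [if_pos he, ← tabB2 (s e), ← Equiv.sum_comp (Equiv.addRight ((A 0 e, A 1 e, A 2 e) : F8))]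
      apply card_prod
      intro v
      congr 1
      apply Finset.filter_congr
      intro u _
      apply Eq.congr_left
      simp only [he, if_true, Equiv.coe_addRight, Prod.fst_add, Prod.snd_add, e0 v]
      ring
    · rw [if_neg he]
      by_cases hz : A 0 e ≠ 0 ∨ A 1 e ≠ 0 ∨ A 2 e ≠ 0
      · refine Eq.trans (card_prod _ (fun _ => 4) ?_) rfl
        intro v
        rw [← tabB1 _ _ _ hz (B v e)]
        congr 1
        apply Finset.filter_congr
        intro u _
        apply Eq.congr_left
        simp only [he, if_false, mul_zero, add_zero]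
      · push Not at hz
        obtain ⟨z0, z1, z2⟩ := hz
        have m : ∀ i, A i e = 0 → e ∈ J i := by
          intro i hi
          by_contra h
          have := hA2 i e (by rw [Finset.mem_union]; tauto)
          rw [hi] at this
          exact absurd this (by decide)
        have hJ : e ∉ J0 := by
          intro h
          obtain ⟨i, hi⟩ := k5 e h
          fin_cases i
          · exact hi (m 0 z0)
          · exact hi (m 1 z1)
          · exact hi (m 2 z2)
        have e0 : ∀ v : F8, B v e = v.1 := by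
          intro v
          have := hB' v e hJ
          simpa only [he, if_false] using this
        refine Eq.trans (card_prod _ (fun v => if v.1 = 1 then 8 else 0) ?_) (by decide +kernel)
        intro v
        simp only [e0, z0, z1, z2, he, if_false, mul_zero, add_zero]
        by_cases h : v.1 = 1
        · simp only [h, if_true]
          decide +kernel
        · simp [h]

end Pool.Agent.K4H75.EC
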