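import Pool.Agent.K4H75.EC.PackG
import Pool.Agent.Helper879.ECD.Flow

set_option autoImplicit false
set_option linter.unusedSectionVars false

/-!
The partition of the vertices given by a space of vertex vectors.
-/

namespace Pool.Agent.K4H75.EC

open Finset
open Pool.Agent.Helper879.ECD (sp Ind sp_mono mem_sp F2 IsFlow inc fnl fnl_single fnl_inc cn
  f2_add_self exists_coeff)

variable {W E : Type} [Fintype W] [DecidableEq W] [Fintype E] [DecidableEq E]

lemma vself (u : W → F2) : u + u = 0 := by
  ext w; exact f2_add_self _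

/-- two vertices are equivalent if the sum of their unit vectors lies in `S` -/
def rel (S : Submodule F2 (W → F2)) (w v : W) : Prop :=
  (Pi.single w 1 + Pi.single v 1 : W → F2) ∈ S

lemma rel_refl (S : Submodule F2 (W → F2)) (w : W) : rel S w w := by
  unfold rel
  rw [vself]; exact S.zero_mem

lemma rel_symm {S : Submodule F2 (W → F2)} {w v : W} (h : rel S w v) : rel S v w := by
  unfold rel at *
  rw [add_comm]; exact h

lemma rel_trans {S : Submodule F2 (W → F2)} {u v w : W} (h1 : rel S u v) (h2 : rel S v w) :
    rel S u w := by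
  unfold rel at *
  have h3 := S.add_mem h1 h2
  have h4 : (Pi.single u 1 + Pi.single v 1 : W → F2) + (Pi.single v 1 + Pi.single w 1) =
      Pi.single u 1 + Pi.single w 1 := by
    rw [show (Pi.single u 1 + Pi.single v 1 : W → F2) + (Pi.single v 1 + Pi.single w 1) =
      Pi.single u 1 + (Pi.single v 1 + Pi.single v 1) + Pi.single w 1 by abel, vself, add_zero]
  rw [h4] at h3
  exact h3

lemma rel_mono {S S' : Submodule F2 (W → F2)} (h : S ≤ S') {u v : W} (h1 : rel S u v) :
    rel S' u v := h h1

open Classical in
/-- the class of a vertex -/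
noncomputable def cls (S : Submodule F2 (W → F2)) (w : W) : Finset W :=
  univ.filter (fun v => rel S w v)

lemma mem_cls {S : Submodule F2 (W → F2)} {w v : W} : v ∈ cls S w ↔ rel S w v := by
  classical
  simp [cls]

lemma self_mem_cls (S : Submodule F2 (W → F2)) (w : W) : w ∈ cls S w := mem_cls.2 (rel_refl S w)

lemma cls_eq {S : Submodule F2 (W → F2)} {w v : W} (h : rel S w v) : cls S w = cls S v := by
  ext u
  rw [mem_cls, mem_cls]
  exact ⟨fun h' => rel_trans (rel_symm h) h', fun h' => rel_trans h h'⟩

open Classical in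
/-- the classes -/
noncomputable def parts (S : Submodule F2 (W → F2)) : Finset (Finset W) := univ.image (cls S)

lemma cls_mem_parts (S : Submodule F2 (W → F2)) (w : W) : cls S w ∈ parts S := by
  classical
  exact Finset.mem_image_of_mem _ (Finset.mem_univ _)

lemma eq_cls {S : Submodule F2 (W → F2)} {X : Finset W} (hX : X ∈ parts S) {w : W} (hw : w ∈ X) :
    X = cls S w := by
  classical
  obtain ⟨v, _, rfl⟩ := Finset.mem_image.1 hX
  exact cls_eq (mem_cls.1 hw)

lemma mem_iff_cls {S : Submodule F2 (W → F2)} {X : Finset W} (hX : X ∈ parts S) (w : W) :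
    w ∈ X ↔ X = cls S w :=
  ⟨fun h => eq_cls hX h, fun h => by rw [h]; exact self_mem_cls S w⟩

lemma inc_mem_iff (a b : E → W) (S : Submodule F2 (W → F2)) (e : E) :
    inc a b e ∈ S ↔ rel S (a e) (b e) := Iff.rfl

lemma cls_ne {a b : E → W} {S : Submodule F2 (W → F2)} {e : E} (h : ¬ inc a b e ∈ S) :
    cls S (a e) ≠ cls S (b e) := by
  intro h2
  apply h
  rw [inc_mem_iff]
  have : b e ∈ cls S (b e) := self_mem_cls _ _
  rw [← h2, mem_cls] at this
  exact this

open Classical in
/-- every edge between different classes is counted twice -/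
lemma sum_cn_parts (a b : E → W) (S : Submodule F2 (W → F2)) (M : Finset E) :
    ∑ X ∈ parts S, cn a b M X = 2 * (M.filter (fun e => ¬ inc a b e ∈ S)).card := by
  simp only [cn, Finset.card_filter, Finset.mul_sum]
  rw [Finset.sum_comm]
  apply Finset.sum_congr rfl
  intro e _
  by_cases h : inc a b e ∈ S
  · have h1 : ∀ X ∈ parts S, (if ¬ (a e ∈ X ↔ b e ∈ X) then 1 else 0) = 0 := by
      intro X hX
      rw [if_neg]
      rw [not_not, mem_iff_cls hX, mem_iff_cls hX, cls_eq ((inc_mem_iff a b S e).1 h)]
    rw [Finset.sum_congr rfl h1]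
    simp [h]
  · have hne := cls_ne h
    have h1 : ∀ X ∈ parts S, (if ¬ (a e ∈ X ↔ b e ∈ X) then 1 else 0) =
        (if X = cls S (a e) then 1 else 0) + (if X = cls S (b e) then 1 else 0) := by
      intro X hX
      have ha := mem_iff_cls hX (a e)
      have hb := mem_iff_cls hX (b e)
      by_cases h2 : X = cls S (a e)
      · have h3 : ¬ X = cls S (b e) := fun h3 => hne (h2.symm.trans h3)
        rw [if_pos, if_pos h2, if_neg h3]
        intro h4
        exact h3 (hb.1 (h4.1 (ha.2 h2)))
      · by_cases h3 : X = cls S (b e)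
        · rw [if_pos, if_neg h2, if_pos h3]
          intro h4
          exact h2 (ha.1 (h4.2 (hb.2 h3)))
        · rw [if_neg, if_neg h2, if_neg h3]
          rw [not_not]
          exact ⟨fun h4 => absurd (ha.1 h4) h2, fun h4 => absurd (hb.1 h4) h3⟩
    rw [Finset.sum_congr rfl h1, Finset.sum_add_distrib]
    simp [h, cls_mem_parts]

open Classical in
/-- classes which are left by some edge -/
noncomputable def parts' (a b : E → W) (S : Submodule F2 (W → F2)) : Finset (Finset W) :=
  (parts S).filter (fun X => cn a b univ X ≠ 0)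

lemma cls_mem_parts' {a b : E → W} {S : Submodule F2 (W → F2)} {e : E} (h : ¬ inc a b e ∈ S)
    {w : W} (hw : w = a e ∨ w = b e) : cls S w ∈ parts' a b S := by
  classical
  unfold parts'
  rw [Finset.mem_filter]
  refine ⟨cls_mem_parts _ _, ?_⟩
  unfold cn
  rw [Finset.card_ne_zero]
  refine ⟨e, ?_⟩
  rw [Finset.mem_filter]
  refine ⟨Finset.mem_univ _, ?_⟩
  intro h2
  apply h
  rw [inc_mem_iff]
  rcases hw with rfl | rfl
  · exact mem_cls.1 (h2.1 (self_mem_cls _ _))
  · exact rel_symm (mem_cls.1 (h2.2 (self_mem_cls _ _)))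

/-- spanning all edges by one vector for every class which is left by some edge -/
lemma span_parts (a b : E → W) (S : Submodule F2 (W → F2)) :
    ∃ T : Finset (W → F2), T.card ≤ (parts' a b S).card ∧
      ∀ e, inc a b e ∈ S ⊔ Submodule.span F2 (T : Set (W → F2)) := by
  classical
  have hrep : ∀ X ∈ parts S, ∃ w, w ∈ X := by
    intro X hX
    obtain ⟨v, _, rfl⟩ := Finset.mem_image.1 hX
    exact ⟨v, self_mem_cls _ _⟩
  by_cases hWe : IsEmpty W
  · refine ⟨∅, by simp, fun e => (hWe.false (a e)).elim⟩
  rw [not_isEmpty_iff] at hWe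
  choose! rep hrep using hrep
  refine ⟨(parts' a b S).image (fun X => Pi.single (rep X) 1), Finset.card_image_le, ?_⟩
  intro e
  by_cases h : inc a b e ∈ S
  · exact Submodule.mem_sup_left h
  · have hmem : ∀ w, (w = a e ∨ w = b e) →
        (Pi.single w 1 : W → F2) ∈ S ⊔ Submodule.span F2
          (((parts' a b S).image (fun X => (Pi.single (rep X) 1 : W → F2)) :
            Finset (W → F2)) : Set (W → F2)) := by
      intro w hw
      have h1 : (Pi.single w 1 + Pi.single (rep (cls S w)) 1 : W → F2) ∈ S :=
        mem_cls.1 (hrep _ (cls_mem_parts S w))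
      have h2 : (Pi.single (rep (cls S w)) 1 : W → F2) ∈ Submodule.span F2
          (((parts' a b S).image (fun X => (Pi.single (rep X) 1 : W → F2)) :
            Finset (W → F2)) : Set (W → F2)) := by
        apply Submodule.subset_span
        rw [Finset.mem_coe]
        exact Finset.mem_image.2 ⟨cls S w, cls_mem_parts' h hw, rfl⟩
      have h3 : (Pi.single w 1 : W → F2) =
          (Pi.single w 1 + Pi.single (rep (cls S w)) 1) + Pi.single (rep (cls S w)) 1 := by
        rw [add_assoc, vself, add_zero]
      rw [h3]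
      exact Submodule.add_mem _ (Submodule.mem_sup_left h1) (Submodule.mem_sup_right h2)
    exact Submodule.add_mem _ (hmem _ (Or.inl rfl)) (hmem _ (Or.inr rfl))

/-- relative version: the classes with property `N` are joined to a fixed vertex by `Q` -/
lemma span_parts_rel (a b : E → W) (S Q : Submodule F2 (W → F2)) (hSQ : S ≤ Q)
    (N : Finset W → Prop) [DecidablePred N] (c0 : W)
    (hN : ∀ X ∈ parts' a b S, N X → ∃ w ∈ X, rel Q w c0) :
    ∃ T : Finset (W → F2), T.card ≤ ((parts' a b S).filter (fun X => ¬ N X)).card ∧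
      ∀ e, inc a b e ∈ Q ⊔ Submodule.span F2 (T : Set (W → F2)) := by
  classical
  have hrep : ∀ X ∈ parts S, ∃ w, w ∈ X := by
    intro X hX
    obtain ⟨v, _, rfl⟩ := Finset.mem_image.1 hX
    exact ⟨v, self_mem_cls _ _⟩
  haveI : Nonempty W := ⟨c0⟩
  choose! rep hrep using hrep
  let f : Finset W → (W → F2) := fun X => Pi.single (rep X) 1 + Pi.single c0 1
  refine ⟨((parts' a b S).filter (fun X => ¬ N X)).image f, Finset.card_image_le, ?_⟩
  intro e
  by_cases h : inc a b e ∈ S
  · exact Submodule.mem_sup_left (hSQ h)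
  · have hmem : ∀ w, (w = a e ∨ w = b e) →
        (Pi.single w 1 + Pi.single c0 1 : W → F2) ∈ Q ⊔ Submodule.span F2
          ((((parts' a b S).filter (fun X => ¬ N X)).image f :
            Finset (W → F2)) : Set (W → F2)) := by
      intro w hw
      have hX := cls_mem_parts' h hw
      by_cases hNX : N (cls S w)
      · obtain ⟨v, hv, hv2⟩ := hN _ hX hNX
        apply Submodule.mem_sup_left
        exact rel_trans (rel_mono hSQ (mem_cls.1 hv)) hv2
      · have h1 : rel S w (rep (cls S w)) := mem_cls.1 (hrep _ (cls_mem_parts S w))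
        have h2 : f (cls S w) ∈ Submodule.span F2
            ((((parts' a b S).filter (fun X => ¬ N X)).image f :
            Finset (W → F2)) : Set (W → F2)) := by
          apply Submodule.subset_span
          rw [Finset.mem_coe]
          exact Finset.mem_image.2 ⟨cls S w, Finset.mem_filter.2 ⟨hX, hNX⟩, rfl⟩
        have h3 : (Pi.single w 1 + Pi.single c0 1 : W → F2) =
            (Pi.single w 1 + Pi.single (rep (cls S w)) 1) + f (cls S w) := by
          show _ = (Pi.single w 1 + Pi.single (rep (cls S w)) 1) +
            (Pi.single (rep (cls S w)) 1 + Pi.single c0 1)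
          rw [show (Pi.single w 1 + Pi.single (rep (cls S w)) 1 : W → F2) +
            (Pi.single (rep (cls S w)) 1 + Pi.single c0 1) = Pi.single w 1 +
              (Pi.single (rep (cls S w)) 1 + Pi.single (rep (cls S w)) 1) + Pi.single c0 1 by abel,
            vself, add_zero]
        rw [h3]
        exact Submodule.add_mem _ (Submodule.mem_sup_left (hSQ h1)) (Submodule.mem_sup_right h2)
    have h5 := Submodule.add_mem _ (hmem _ (Or.inl rfl)) (hmem _ (Or.inr rfl))
    have h6 : (Pi.single (a e) 1 + Pi.single c0 1 : W → F2) + (Pi.single (b e) 1 + Pi.single c0 1) =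
        inc a b e := by
      unfold inc
      rw [show (Pi.single (a e) 1 + Pi.single c0 1 : W → F2) + (Pi.single (b e) 1 + Pi.single c0 1) =
        Pi.single (a e) 1 + Pi.single (b e) 1 + (Pi.single c0 1 + Pi.single c0 1) by abel,
        vself, add_zero]
    rw [h6] at h5
    exact h5

end Pool.Agent.K4H75.EC
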