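import Pool.Agent.K4H75.EC.Base
import Pool.Agent.TH399.CC.Span

set_option autoImplicit false
set_option linter.unusedSectionVars false

/-!
Circuit covers of weightings which are constant outside an even set of edges.
-/

namespace Pool.Agent.K4H75.EC

open Finset
open Pool.Agent.Helper879.ECD (sp mem_sp F2 IsFlow inc cn f2_add_self f2_cases)
open Pool.Agent.H126R2.CDC (MGraph isFl_iff)
open Pool.Agent.H126R2.NC (InCone InLat InIntCone cone_lat_of_intCone bridgeless_of_cone
  countP_sum)
open Pool.Agent.TH399.CC (intCone_add intCone_sum isEven_of_isFlow bdry bdry_card)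

variable {V E : Type} [Fintype V] [DecidableEq V] [Fintype E] [DecidableEq E]

lemma intCone_of_flows (G : MGraph V E) (v : E × Bool → V)
    (hv : ∀ e, G.ends e = s(v (e, false), v (e, true))) {ι : Type} [Fintype ι] [DecidableEq ι]
    (Y : ι → E → F2) (hY : ∀ i, IsFlow (fun e => v (e, false)) (fun e => v (e, true)) (Y i)) :
    InIntCone G (fun e => (univ.filter (fun i => Y i e = 1)).card) := by
  classical
  choose S hS1 hS2 using fun t => G.decompose _ _ rfl (isEven_of_isFlow G v hv (Y t) (hY t))
  refine ⟨∑ t, S t, ?_, ?_⟩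
  · intro C hC
    rw [Multiset.mem_sum] at hC
    obtain ⟨t, _, ht⟩ := hC
    exact hS1 t C ht
  · intro e
    rw [countP_sum]
    have h1 : ∀ t ∈ (univ : Finset ι), (S t).countP (fun C => e ∈ C) =
        if Y t e = 1 then 1 else 0 := by
      intro t _
      rw [hS2 t e]
      simp
    rw [Finset.sum_congr rfl h1, ← Finset.card_filter]

lemma intCone_smul (G : MGraph V E) {p : E → ℕ} (hp : InIntCone G p) (n : ℕ) :
    InIntCone G (fun e => n * p e) := by
  obtain ⟨S, hS1, hS2⟩ := hp
  exact ⟨n • S, fun C hC => hS1 C (Multiset.mem_of_mem_nsmul hC), fun e => by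
    rw [Multiset.countP_nsmul, hS2 e]⟩

lemma intCone_even (G : MGraph V E) (D : Finset E) (hD : G.IsEven D) :
    InIntCone G (fun e => if e ∈ D then 1 else 0) := by
  obtain ⟨F, hF1, hF2⟩ := G.decompose _ D rfl hD
  exact ⟨F, hF1, hF2⟩

lemma sum_min (m k d : ℕ) : ∑ j ∈ Finset.range k, min m (d - m * j) = min d (m * k) := by
  induction k with
  | zero => simp
  | succ k ih =>
    rw [Finset.sum_range_succ, ih, Nat.mul_succ]
    omega

/-- putting the blocks together -/
theorem assemble (G : MGraph V E) (D : Finset E) (hev : G.IsEven D) (lo N : ℕ) (hlo : 0 < lo)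
    (hmid : Even (lo + N))
    (hblock : G.Bridgeless → ∀ s : E → Fin (N + 1),
      InIntCone G (fun e => if e ∈ D then lo + 2 * (s e).val else lo + N))
    (p : E → ℕ) (α : ℕ) (hα : Even α) (hoff : ∀ e, e ∉ D → p e = α) (hp : ∀ e, Even (p e))
    (hlow : ∀ e ∈ D, α ≤ p e + N * (α / (lo + N)))
    (hup : ∀ e ∈ D, ∀ f ∈ D, p e ≤ p f + 2 * N * (α / (lo + N))) (hcone : InCone G p) :
    InIntCone G p := by
  classical
  obtain ⟨c0, hc0⟩ := hmid
  obtain ⟨c1, hc1⟩ := hα
  have hmpos : 0 < lo + N := by omega
  set k := α / (lo + N) with hk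
  obtain ⟨r, hr⟩ : ∃ r, α = (lo + N) * k + 2 * r := by
    have h1 := Nat.div_add_mod α (lo + N)
    rw [← hk] at h1
    have h2 : (lo + N) * k = 2 * (c0 * k) := by rw [hc0]; ring
    exact ⟨(α % (lo + N)) / 2, by omega⟩
  have hNk : N * k + lo * k + 2 * r = α := by rw [hr]; ring
  rcases Nat.eq_zero_or_pos α with h0 | hpos
  · -- weight zero outside
    have hk0 : k = 0 := by rw [hk, h0]; simp
    rcases Finset.eq_empty_or_nonempty D with hD | ⟨e0, he0⟩
    · refine ⟨0, by simp, fun e => ?_⟩
      rw [hoff e (by rw [hD]; exact Finset.notMem_empty _), h0]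
      simp
    · have h1 := intCone_smul G (intCone_even G D hev) (p e0)
      have h2 : (fun e => p e0 * if e ∈ D then 1 else 0) = p := by
        ext e
        by_cases he : e ∈ D
        · have h3 := hup e he e0 he0
          have h4 := hup e0 he0 e he
          rw [hk0] at h3 h4
          simp only [he, if_true]
          omega
        · simp only [he, if_false, mul_zero]
          rw [hoff e he, h0]
      rw [h2] at h1
      exact h1
  · have hppos : ∀ e, 0 < p e := by
      intro e
      by_cases he : e ∈ D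
      · have h1 := hlow e he
        have h2 : k ≤ lo * k := Nat.le_mul_of_pos_left _ hlo
        rcases Nat.eq_zero_or_pos k with h3 | h3
        · rw [h3] at h1; omega
        · omega
      · rw [hoff e he]; exact hpos
    have hbr := bridgeless_of_cone G p hcone hppos
    obtain ⟨S, hS1, hS2⟩ := G.exists_cdc hbr
    have hC : InIntCone G (fun _ => 2) := ⟨S, hS1, hS2⟩
    -- the minimum on `D`
    obtain ⟨m, hm1, hm2, hm3, hm4⟩ : ∃ m : ℕ, Even m ∧ lo * k + 2 * r ≤ m ∧
        (∀ e ∈ D, m ≤ p e) ∧ ∀ e ∈ D, p e ≤ m + 2 * N * k := by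
      rcases Finset.eq_empty_or_nonempty D with hD | hD
      · refine ⟨2 * (lo * k + 2 * r), ⟨lo * k + 2 * r, by ring⟩, by omega, ?_, ?_⟩
        · intro e he; rw [hD] at he; exact absurd he (Finset.notMem_empty _)
        · intro e he; rw [hD] at he; exact absurd he (Finset.notMem_empty _)
      · obtain ⟨e1, he1, hmin⟩ := Finset.exists_min_image D p hD
        refine ⟨p e1, hp e1, ?_, fun e he => hmin e he, fun e he => hup e he e1 he1⟩
        have := hlow e1 he1
        omega
    obtain ⟨m', hm'⟩ := hm1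
    let d : E → ℕ := fun e => (p e - m) / 2
    have hd : ∀ e ∈ D, p e = m + 2 * d e := by
      intro e he
      obtain ⟨c, hc⟩ := hp e
      have := hm3 e he
      show p e = m + 2 * ((p e - m) / 2)
      omega
    have hB : ∀ j ∈ Finset.range k, InIntCone G (fun e => if e ∈ D then
        lo + 2 * (min N (d e - N * j)) else lo + N) := by
      intro j _
      have h1 := hblock hbr (fun e => ⟨min N (d e - N * j), by
        have := min_le_left N (d e - N * j)
        omega⟩)
      exact h1
    have hB' := intCone_sum G (Finset.range k) _ hB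
    have h5 := intCone_add G (intCone_add G hB' (intCone_smul G hC r) (fun e => rfl))
      (intCone_smul G (intCone_even G D hev) (m - (lo * k + 2 * r))) (fun e => rfl)
    have h6 : (fun e => ∑ j ∈ Finset.range k, (if e ∈ D then
        lo + 2 * (min N (d e - N * j)) else lo + N) + r * 2 +
        (m - (lo * k + 2 * r)) * (if e ∈ D then 1 else 0)) = p := by
      ext e
      by_cases he : e ∈ D
      · simp only [he, if_true]
        rw [Finset.sum_add_distrib, ← Finset.mul_sum, sum_min, Finset.sum_const,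
          Finset.card_range, smul_eq_mul, mul_one]
        have h7 := hd e he
        have h8 := hm4 e he
        have h9 : d e ≤ N * k := by
          have : 2 * N * k = 2 * (N * k) := by ring
          omega
        rw [min_eq_left h9]
        have h10 : k * lo = lo * k := by ring
        omega
      · simp only [he, if_false]
        rw [Finset.sum_const, Finset.card_range, smul_eq_mul, mul_zero, hoff e he]
        have h10 : k * (lo + N) = N * k + lo * k := by ring
        omega
    rw [← h6]
    exact h5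

/-- every nonempty proper set of vertices is left by an edge outside `C` -/
def ConnectedOff (G : MGraph V E) (C : Finset E) : Prop :=
  ∀ B : Finset V, B.Nonempty → B ≠ univ →
    ∃ e, e ∉ C ∧ (∃ x ∈ G.ends e, x ∈ B) ∧ ∃ x ∈ G.ends e, x ∉ B

/-- any two edges of `C` are joined by a chain of edges of `C` in which consecutive edges share a
vertex -/
def ConnectedSet (G : MGraph V E) (C : Finset E) : Prop :=
  ∀ e ∈ C, ∀ f ∈ C,
    Relation.ReflTransGen (fun a b => b ∈ C ∧ ∃ v, v ∈ G.ends a ∧ v ∈ G.ends b) e f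

lemma cross_iff (G : MGraph V E) (v : E × Bool → V)
    (hv : ∀ e, G.ends e = s(v (e, false), v (e, true))) (B : Finset V) (e : E) :
    ((∃ x ∈ G.ends e, x ∈ B) ∧ ∃ x ∈ G.ends e, x ∉ B) ↔
      ¬ (v (e, false) ∈ B ↔ v (e, true) ∈ B) := by
  rw [hv e]
  simp only [Sym2.mem_iff]
  constructor
  · rintro ⟨⟨x, hx, hxB⟩, y, hy, hyB⟩ h
    rcases hx with rfl | rfl <;> rcases hy with rfl | rfl
    · exact hyB hxB
    · exact hyB (h.1 hxB)
    · exact hyB (h.2 hxB)
    · exact hyB hxB
  · intro h
    by_cases h1 : v (e, false) ∈ B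
    · by_cases h2 : v (e, true) ∈ B
      · exact absurd ⟨fun _ => h2, fun _ => h1⟩ h
      · exact ⟨⟨_, Or.inl rfl, h1⟩, _, Or.inr rfl, h2⟩
    · by_cases h2 : v (e, true) ∈ B
      · exact ⟨⟨_, Or.inr rfl, h2⟩, _, Or.inl rfl, h1⟩
      · exact absurd ⟨fun h => absurd h h1, fun h => absurd h h2⟩ h

lemma cut_off (G : MGraph V E) (v : E × Bool → V)
    (hv : ∀ e, G.ends e = s(v (e, false), v (e, true))) (C : Finset E) (h : ConnectedOff G C)
    (X : Finset V) (hX : cn (fun e => v (e, false)) (fun e => v (e, true)) univ X ≠ 0) :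
    cn (fun e => v (e, false)) (fun e => v (e, true)) (univ \ C) X ≠ 0 := by
  have h1 : X.Nonempty := by
    by_contra h1
    rw [Finset.not_nonempty_iff_eq_empty] at h1
    apply hX
    unfold cn
    rw [Finset.card_eq_zero, Finset.filter_eq_empty_iff]
    intro e _
    simp [h1]
  have h2 : X ≠ univ := by
    intro h2
    apply hX
    unfold cn
    rw [Finset.card_eq_zero, Finset.filter_eq_empty_iff]
    intro e _
    simp [h2]
  obtain ⟨e, he, hcr⟩ := h X h1 h2
  unfold cn
  rw [Finset.card_ne_zero]
  refine ⟨e, ?_⟩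
  rw [Finset.mem_filter, Finset.mem_sdiff]
  exact ⟨⟨Finset.mem_univ _, he⟩, (cross_iff G v hv X e).1 hcr⟩

/-- a cut with two edges does not meet `C` -/
lemma two_cut (a b : E → V) (C : Finset E) (hC : IsFlow a b (fun e => if e ∈ C then 1 else 0))
    (h1 : ∀ X : Finset V, cn a b univ X ≠ 0 → cn a b (univ \ C) X ≠ 0)
    (X : Finset V) (f g : E) (hfg : f ≠ g)
    (hmem : ∀ e, ¬ (a e ∈ X ↔ b e ∈ X) ↔ (e = f ∨ e = g)) : f ∉ C ∧ g ∉ C := by
  have h2 : ∃ e, e ∉ C ∧ (e = f ∨ e = g) := by
    have h3 := h1 X (by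
      unfold cn
      rw [Finset.card_ne_zero]
      exact ⟨f, Finset.mem_filter.2 ⟨Finset.mem_univ _, (hmem f).2 (Or.inl rfl)⟩⟩)
    unfold cn at h3
    rw [Finset.card_ne_zero] at h3
    obtain ⟨e, he⟩ := h3
    rw [Finset.mem_filter, Finset.mem_sdiff] at he
    exact ⟨e, he.1.2, (hmem e).1 he.2⟩
  have h3 := hC (fun w => if w ∈ X then 1 else 0)
  have h4 : ∀ e ∈ (univ : Finset E), (if e ∈ C then (1 : F2) else 0) *
      ((if a e ∈ X then (1 : F2) else 0) + (if b e ∈ X then 1 else 0)) =
      (if e = f then (if f ∈ C then 1 else 0) else 0) +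
        (if e = g then (if g ∈ C then 1 else 0) else 0) := by
    intro e _
    by_cases he : (e = f ∨ e = g)
    · have h5 := (hmem e).2 he
      have h6 : (if a e ∈ X then (1 : F2) else 0) + (if b e ∈ X then 1 else 0) = 1 := by
        by_cases h3 : a e ∈ X
        · have h4 : b e ∉ X := fun h4 => h5 ⟨fun _ => h4, fun _ => h3⟩
          simp [h3, h4]
        · have h4 : b e ∈ X := by
            by_contra h4; exact h5 ⟨fun h => absurd h h3, fun h => absurd h h4⟩
          simp [h3, h4]
      rw [h6, mul_one]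
      rcases he with rfl | rfl
      · rw [if_pos rfl, if_neg hfg, add_zero]
      · rw [if_neg (Ne.symm hfg), if_pos rfl, zero_add]
    · have h5 := not_not.1 (fun h => he ((hmem e).1 h))
      have h6 : (if a e ∈ X then (1 : F2) else 0) + (if b e ∈ X then 1 else 0) = 0 := by
        by_cases h3 : a e ∈ X
        · have h4 := h5.1 h3
          simp only [h3, h4, if_true]
          exact f2_add_self _
        · have h4 : b e ∉ X := fun h => h3 (h5.2 h)
          simp [h3, h4]
      rw [h6, mul_zero, if_neg (fun h => he (Or.inl h)), if_neg (fun h => he (Or.inr h)), add_zero]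
  rw [Finset.sum_congr rfl h4, Finset.sum_add_distrib, Finset.sum_ite_eq', Finset.sum_ite_eq'] at h3
  simp only [Finset.mem_univ, if_true] at h3
  obtain ⟨e, he, hfg'⟩ := h2
  by_cases hf : f ∈ C <;> by_cases hg : g ∈ C
  · rcases hfg' with rfl | rfl
    · exact absurd hf he
    · exact absurd hg he
  · simp [hf, hg] at h3
  · simp [hf, hg] at h3
  · exact ⟨hf, hg⟩

/-- the block for a closed trail -/
theorem block_one (G : MGraph V E) (C : Finset E) (e0 : E) (he0 : e0 ∈ C) (hev : G.IsEven C)
    (hconn : ConnectedSet G C) (hoff : ConnectedOff G C) (hbr : G.Bridgeless) (s : E → Fin 3) :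
    InIntCone G (fun e => if e ∈ C then 2 + 2 * (s e).val else 4) := by
  classical
  obtain ⟨v, hv⟩ := G.exists_halves
  have hC := (isFl_iff v _).1 ((G.isEven_iff v hv C).1 hev)
  obtain ⟨Y, hY1, hY2⟩ := reduce (ι := F8) (W := V)
    (fun e => if e ∈ C then 2 + 2 * (s e).val else 4)
    (fun a b => IsFlow a b (fun e => if e ∈ C then 1 else 0) ∧
      (∀ X : Finset V, cn a b univ X ≠ 0 → cn a b (univ \ C) X ≠ 0) ∧
      (∀ X : Finset V, (∀ e ∈ C, a e ∈ X ↔ b e ∈ X) → a e0 ∈ X → ∀ e ∈ C, a e ∈ X) ∧
      ∀ X : Finset V, cn a b univ X ≠ 1)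
    (by
      rintro a b ρ ⟨k1, k2, k3, k4⟩
      refine ⟨isFlow_comp ρ k1, ?_, ?_, ?_⟩
      · intro X hX
        rw [cn_comp] at hX ⊢
        exact k2 _ hX
      · intro X hX h0 e he
        have := k3 (univ.filter (fun w => ρ w ∈ X)) (by
          intro e he
          simpa using hX e he) (by simpa using h0) e he
        simpa using this
      · intro X
        rw [cn_comp]
        exact k4 _)
    (by
      rintro a b ⟨k1, k2, k3, k4⟩
      exact k4)
    (by
      rintro a b ⟨k1, k2, k3, k4⟩ X f g hfg hmem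
      obtain ⟨hf, hg⟩ := two_cut a b C k1 k2 X f g hfg hmem
      simp only [hf, hg, if_false])
    (by
      rintro a b ⟨k1, k2, k3, k4⟩ h3
      have hrel : ∀ e ∈ C, rel (sp F2 (inc a b) C) (a e) (a e0) := by
        intro e he
        apply rel_symm
        rw [← mem_cls]
        refine k3 (cls (sp F2 (inc a b) C) (a e0)) ?_ (self_mem_cls _ _) e he
        intro f hf
        have h5 : rel (sp F2 (inc a b) C) (a f) (b f) := mem_sp hf
        rw [mem_cls, mem_cls]
        exact ⟨fun h => rel_trans h h5, fun h => rel_trans h (rel_symm h5)⟩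
      obtain ⟨Y, hY1, hY2⟩ := family_one a b C e0 he0 k1 hrel k2 h3 s
      refine ⟨Y, hY1, fun e => ?_⟩
      rw [hY2 e]
      by_cases he : e ∈ C
      · simp only [he, if_true]; ring
      · simp only [he, if_false])
    _ (fun e => v (e, false)) (fun e => v (e, true)) rfl (by
      refine ⟨hC, cut_off G v hv C hoff, ?_, G.no_one_cut hbr v hv⟩
      intro X hX h0 e he
      have h1 : ∀ e, Relation.ReflTransGen
          (fun a b => b ∈ C ∧ ∃ v, v ∈ G.ends a ∧ v ∈ G.ends b) e0 e → e ∈ C ∧
          v (e, false) ∈ X := by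
        intro e hr
        induction hr with
        | refl => exact ⟨he0, h0⟩
        | @tail f g _ hstep ih =>
          obtain ⟨hf, hfX⟩ := ih
          obtain ⟨hg, w, hw1, hw2⟩ := hstep
          refine ⟨hg, ?_⟩
          have hwX : w ∈ X := by
            rw [hv f, Sym2.mem_iff] at hw1
            rcases hw1 with rfl | rfl
            · exact hfX
            · exact (hX f hf).1 hfX
          rw [hv g, Sym2.mem_iff] at hw2
          rcases hw2 with rfl | rfl
          · exact hwX
          · exact (hX g hg).2 hwX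
      exact (h1 e (hconn e0 he0 e he)).2)
  have h9 := intCone_of_flows G v hv Y hY1
  have h10 : (fun e => (univ.filter (fun i => Y i e = 1)).card) =
      (fun e => if e ∈ C then 2 + 2 * (s e).val else 4) := by
    ext e; exact hY2 e
  rw [h10] at h9
  exact h9

/-- the block for an arbitrary even set -/
theorem block_three (G : MGraph V E) (D : Finset E) (hev : G.IsEven D)
    (hoff : ConnectedOff G D) (hbr : G.Bridgeless) (s : E → Fin 11) :
    InIntCone G (fun e => if e ∈ D then 22 + 2 * (s e).val else 32) := by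
  classical
  obtain ⟨v, hv⟩ := G.exists_halves
  have hD := (isFl_iff v _).1 ((G.isEven_iff v hv D).1 hev)
  obtain ⟨Y, hY1, hY2⟩ := reduce (ι := F8 × F8) (W := V)
    (fun e => if e ∈ D then 22 + 2 * (s e).val else 32)
    (fun a b => IsFlow a b (fun e => if e ∈ D then 1 else 0) ∧
      (∀ X : Finset V, cn a b univ X ≠ 0 → cn a b (univ \ D) X ≠ 0) ∧
      ∀ X : Finset V, cn a b univ X ≠ 1)
    (by
      rintro a b ρ ⟨k1, k2, k4⟩
      refine ⟨isFlow_comp ρ k1, ?_, ?_⟩
      · intro X hX
        rw [cn_comp] at hX ⊢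
        exact k2 _ hX
      · intro X
        rw [cn_comp]
        exact k4 _)
    (by
      rintro a b ⟨k1, k2, k4⟩
      exact k4)
    (by
      rintro a b ⟨k1, k2, k4⟩ X f g hfg hmem
      obtain ⟨hf, hg⟩ := two_cut a b D k1 k2 X f g hfg hmem
      simp only [hf, hg, if_false])
    (by
      rintro a b ⟨k1, k2, k4⟩ h3
      exact family_three a b D k1 k2 h3 s)
    _ (fun e => v (e, false)) (fun e => v (e, true)) rfl
      ⟨hD, cut_off G v hv D hoff, G.no_one_cut hbr v hv⟩
  have h9 := intCone_of_flows G v hv Y hY1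
  have h10 : (fun e => (univ.filter (fun i => Y i e = 1)).card) =
      (fun e => if e ∈ D then 22 + 2 * (s e).val else 32) := by
    ext e; exact hY2 e
  rw [h10] at h9
  exact h9

/-- circuit covers of weightings which are constant outside a closed trail -/
theorem closed_trail (G : MGraph V E) (C : Finset E) (hev : G.IsEven C)
    (hconn : ConnectedSet G C) (hoff : ConnectedOff G C) (p : E → ℕ) (α : ℕ) (hα : Even α)
    (hp : ∀ e, Even (p e)) (hC : ∀ e, e ∉ C → p e = α) (hlow : ∀ e ∈ C, α ≤ 2 * p e)
    (hup : ∀ e ∈ C, ∀ f ∈ C, p e ≤ p f + 4 * (α / 4)) :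
    InIntCone G p ↔ InCone G p ∧ InLat G p := by
  refine ⟨cone_lat_of_intCone G p, ?_⟩
  rintro ⟨hcone, -⟩
  rcases Finset.eq_empty_or_nonempty C with h0 | ⟨e0, he0⟩
  · refine assemble G C hev 4 0 (by norm_num) (by decide) ?_ p α hα hC hp ?_ ?_ hcone
    · intro hbr s
      obtain ⟨S, hS1, hS2⟩ := G.exists_cdc hbr
      have h1 := intCone_smul G (⟨S, hS1, hS2⟩ : InIntCone G (fun _ => 2)) 2
      have h2 : (fun e => if e ∈ C then 4 + 2 * (s e).val else 4 + 0) = (fun _ => 2 * 2) := by
        ext e
        rw [h0]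
        simp
      rw [h2]
      exact h1
    · intro e he; rw [h0] at he; exact absurd he (Finset.notMem_empty _)
    · intro e he; rw [h0] at he; exact absurd he (Finset.notMem_empty _)
  · refine assemble G C hev 2 2 (by norm_num) (by decide)
      (fun hbr s => block_one G C e0 he0 hev hconn hoff hbr s) p α hα hC hp ?_ ?_ hcone
    · intro e he
      have h1 := hlow e he
      obtain ⟨c, hc⟩ := hp e
      obtain ⟨d, hd⟩ := hα
      omega
    · intro e he f hf
      have := hup e he f hf
      omega

/-- circuit covers of weightings which are constant outside an even set -/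
theorem even_set (G : MGraph V E) (D : Finset E) (hev : G.IsEven D)
    (hoff : ConnectedOff G D) (p : E → ℕ) (α : ℕ) (hα : Even α)
    (hp : ∀ e, Even (p e)) (hD : ∀ e, e ∉ D → p e = α)
    (hlow : ∀ e ∈ D, α ≤ p e + 10 * (α / 32))
    (hup : ∀ e ∈ D, ∀ f ∈ D, p e ≤ p f + 20 * (α / 32)) :
    InIntCone G p ↔ InCone G p ∧ InLat G p := by
  refine ⟨cone_lat_of_intCone G p, ?_⟩
  rintro ⟨hcone, -⟩
  exact assemble G D hev 22 10 (by norm_num) (by decide)
    (fun hbr s => block_three G D hev hoff hbr s) p α hα hD hp hlow hup hcone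

end Pool.Agent.K4H75.EC
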