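import Pool.Agent.K4H75.EC.Tree

set_option autoImplicit false
set_option linter.unusedSectionVars false

/-!
Circuit covers of weightings which are constant outside disjoint sets whose complements are
two-edge-connected.
-/

namespace Pool.Agent.K4H75.EC

open Finset
open Pool.Agent.Helper879.ECD (F2 IsFlow cn f2_add_self f2_cases)
open Pool.Agent.H126R2.CDC (MGraph isFl_iff)
open Pool.Agent.H126R2.NC (TC InCone InLat InIntCone cone_lat_of_intCone bridgeless_of_cone
  countP_sum cover_minus const_of_tc f2_ne cr)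
open Pool.Agent.TH399.CC (intCone_add intCone_sum block odd_part bdry bdry_card)

variable {V E : Type} [Fintype V] [DecidableEq V] [Fintype E] [DecidableEq E]

lemma two_edge_conn (G : MGraph V E) (v : E × Bool → V)
    (hv : ∀ e, G.ends e = s(v (e, false), v (e, true))) (X : Finset E)
    (hX : ∀ B : Finset V, B.Nonempty → B ≠ univ →
      2 ≤ ((univ \ X).filter (fun e => (∃ x ∈ G.ends e, x ∈ B) ∧ ∃ x ∈ G.ends e, x ∉ B)).card)
    (B : Finset V) (e : E) (he : cr (fun e => v (e, false)) (fun e => v (e, true)) B e) :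
    2 ≤ cn (fun e => v (e, false)) (fun e => v (e, true)) (univ \ X) B := by
  rw [← bdry_card G v hv (univ \ X) B]
  apply hX
  · by_contra h
    rw [Finset.not_nonempty_iff_eq_empty] at h
    apply he
    simp [h]
  · intro h
    apply he
    simp [h]

/-- the rounds for one set whose complement is two-edge-connected -/
lemma rounds (G : MGraph V E) (v : E × Bool → V)
    (hv : ∀ e, G.ends e = s(v (e, false), v (e, true))) (X : Finset E)
    (hX : ∀ B : Finset V, B.Nonempty → B ≠ univ →
      2 ≤ ((univ \ X).filter (fun e => (∃ x ∈ G.ends e, x ∈ B) ∧ ∃ x ∈ G.ends e, x ∉ B)).card)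
    (r : ℕ) (q : E → ℕ) (hq : ∀ e ∈ X, q e ≤ 4 * r + 3) :
    InIntCone G (fun e => if e ∈ X then 2 * q e else 2 * (2 * r + 3)) := by
  classical
  set a : E → V := fun e => v (e, false) with ha
  set b : E → V := fun e => v (e, true) with hb
  have h2 : ∀ (B : Finset V) (e : E), cr a b B e → 2 ≤ cn a b (univ \ X) B :=
    two_edge_conn G v hv X hX
  have htc : ∀ e ∈ X, ∀ f, TC a b e f → f = e := by
    intro e he f hef
    by_contra hne
    obtain ⟨z, hz⟩ := hef
    have hcr : ∀ h, cr a b (univ.filter (fun w => z w = 1)) h ↔ (h = e ∨ h = f) := by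
      intro h
      have h1 : cr a b (univ.filter (fun w => z w = 1)) h ↔ z (a h) + z (b h) = 1 := by
        simp only [cr, Finset.mem_filter, Finset.mem_univ, true_and]
        exact f2_ne
      rw [h1, hz h]
      by_cases h2 : h = e
      · have h3 : ¬ h = f := fun h3 => hne (h3.symm.trans h2)
        simp [h2, Ne.symm hne]
      · by_cases h3 : h = f
        · simp [h3, hne]
        · simp [h2, h3]
    have h1 := h2 (univ.filter (fun w => z w = 1)) e ((hcr e).2 (Or.inl rfl))
    have h3 : cn a b (univ \ X) (univ.filter (fun w => z w = 1)) ≤ ({f} : Finset E).card := by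
      unfold cn
      apply Finset.card_le_card
      intro h hh
      rw [Finset.mem_filter, Finset.mem_sdiff] at hh
      rw [Finset.mem_singleton]
      rcases (hcr h).1 hh.2 with h3 | h3
      · exact absurd (h3 ▸ he) hh.1.2
      · exact h3
    rw [Finset.card_singleton] at h3
    omega
  have hdel : ∀ X' ⊆ X, ∀ B : Finset V, cn a b (univ \ X') B ≠ 1 := by
    intro X' hX' B h1
    obtain ⟨e, he⟩ := Finset.card_pos.1 (show 0 < ((univ \ X').filter
      (fun e => ¬ (a e ∈ B ↔ b e ∈ B))).card by unfold cn at h1; omega)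
    have h3 := h2 B e (Finset.mem_filter.1 he).2
    have h4 : cn a b (univ \ X) B ≤ cn a b (univ \ X') B := by
      unfold cn
      apply Finset.card_le_card
      intro e he
      rw [Finset.mem_filter, Finset.mem_sdiff] at he ⊢
      exact ⟨⟨he.1.1, fun h => he.1.2 (hX' h)⟩, he.2⟩
    omega
  let u : E → ℕ := fun e => min r (q e / 4)
  let w : E → ℕ := fun e => q e - 4 * u e
  have hu : ∀ e, u e ≤ r := fun e => min_le_left _ _
  have huw : ∀ e, q e = 4 * u e + w e := by
    intro e
    have h1 : u e ≤ q e / 4 := min_le_right _ _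
    show q e = 4 * u e + (q e - 4 * u e)
    omega
  have hw : ∀ e ∈ X, w e ≤ 3 := by
    intro e he
    have h1 := hq e he
    have h2 : u e = r ∨ u e = q e / 4 := min_choice _ _
    show q e - 4 * u e ≤ 3
    omega
  have hA : ∀ t : ℕ, InIntCone G (fun e => if e ∈ X then (if t < u e then 8 else 0) else 4) := by
    intro t
    obtain ⟨S, hS1, hS2⟩ := block G v hv X (X.filter (fun e => t < u e)) (by
        intro e he f hef
        rw [htc e he f hef]
        exact he) (by
        intro e he f hef
        rw [htc e (Finset.mem_filter.1 he).1 f hef]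
        exact he) (by
        intro X' hX' _ B
        exact hdel X' hX' B)
    refine ⟨S, hS1, fun e => ?_⟩
    rw [hS2 e]
    by_cases h : e ∈ X <;> simp [h]
  have hB : ∀ t : ℕ, InIntCone G (fun e => if e ∈ X then (if t < w e then 2 else 0) else 2) := by
    intro t
    obtain ⟨S, hS1, hS2⟩ := cover_minus G v hv (X.filter (fun e => ¬ t < w e))
      (hdel _ (Finset.filter_subset _ _))
    refine ⟨S, hS1, fun e => ?_⟩
    rw [hS2 e]
    by_cases h1 : e ∈ X
    · by_cases h2 : t < w e <;> simp [h1, h2]
    · simp [h1]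
  have hcnt : ∀ (n m k : ℕ), k ≤ n → ∑ t ∈ Finset.range n, (if t < k then m else 0) = m * k := by
    intro n m k hk
    rw [← Finset.sum_filter, Finset.sum_const, smul_eq_mul, mul_comm]
    congr 1
    have h7 : (Finset.range n).filter (fun t => t < k) = Finset.range k := by
      ext t
      rw [Finset.mem_filter, Finset.mem_range, Finset.mem_range]
      omega
    rw [h7, Finset.card_range]
  have hA' := intCone_sum G (Finset.range r) _ (fun t _ => hA t)
  have hB' := intCone_sum G (Finset.range 3) _ (fun t _ => hB t)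
  refine intCone_add G hA' hB' ?_
  intro e
  by_cases he : e ∈ X
  · simp only [he, if_true]
    rw [hcnt r 8 (u e) (hu e), hcnt 3 2 (w e) (hw e he)]
    have h1 := huw e
    omega
  · simp only [he, if_false, Finset.sum_const, Finset.card_range, smul_eq_mul]
    omega

/-- circuit covers of weightings which are constant outside disjoint sets whose complements are
two-edge-connected -/
theorem disjoint_complements (G : MGraph V E) (k : ℕ) (X : Fin k → Finset E)
    (hdis : ∀ i j, i ≠ j → Disjoint (X i) (X j))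
    (hX : ∀ i, ∀ B : Finset V, B.Nonempty → B ≠ univ →
      2 ≤ ((univ \ X i).filter (fun e => (∃ x ∈ G.ends e, x ∈ B) ∧ ∃ x ∈ G.ends e, x ∉ B)).card)
    (c : ℕ) (d : Fin k → ℕ) (p : E → ℕ) (hc : ∀ e, (∀ i, e ∉ X i) → p e = c)
    (hlow : ∀ i, ∀ e ∈ X i, c ≤ p e + d i) (hup : ∀ i, ∀ e ∈ X i, p e ≤ c + d i)
    (hd : ∑ i, (d i + 9) + 1 ≤ c) :
    InIntCone G p ↔ InCone G p ∧ InLat G p := by
  classical
  refine ⟨cone_lat_of_intCone G p, ?_⟩
  rintro ⟨hcone, hlat⟩
  obtain ⟨v, hv⟩ := G.exists_halves
  have hdi : ∀ i, d i + 9 ≤ ∑ i, (d i + 9) := fun i =>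
    Finset.single_le_sum (f := fun i => d i + 9) (fun _ _ => Nat.zero_le _) (Finset.mem_univ i)
  have hpos : ∀ e, 0 < p e := by
    intro e
    by_cases h : ∀ i, e ∉ X i
    · rw [hc e h]; omega
    · push Not at h
      obtain ⟨i, hi⟩ := h
      have h1 := hlow i e hi
      have h2 := hdi i
      omega
  have hbr := bridgeless_of_cone G p hcone hpos
  -- halves
  let r : Fin k → ℕ := fun i => (d i + 3) / 4
  let q : E → ℕ := fun e => p e / 2
  set c' := c / 2 with hc'
  have hr : ∀ i, d i ≤ 4 * r i ∧ 4 * r i ≤ d i + 3 := by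
    intro i
    show d i ≤ 4 * ((d i + 3) / 4) ∧ 4 * ((d i + 3) / 4) ≤ d i + 3
    omega
  have hsum : ∑ i, (2 * r i + 3) ≤ c' := by
    have h1 : 2 * ∑ i, (2 * r i + 3) ≤ ∑ i, (d i + 9) := by
      rw [Finset.mul_sum]
      apply Finset.sum_le_sum
      intro i _
      have := (hr i).2
      omega
    omega
  have hR : ∀ i ∈ (univ : Finset (Fin k)), InIntCone G (fun e => if e ∈ X i then
      2 * (q e + (2 * r i + 3) - c') else 2 * (2 * r i + 3)) := by
    intro i _
    apply rounds G v hv (X i) (hX i) (r i) (fun e => q e + (2 * r i + 3) - c')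
    intro e he
    have h1 := hup i e he
    have h2 := (hr i).1
    show p e / 2 + (2 * r i + 3) - c / 2 ≤ 4 * r i + 3
    omega
  have hR' := intCone_sum G univ _ hR
  obtain ⟨S, hS1, hS2⟩ := G.exists_cdc hbr
  have hC := intCone_smul G (⟨S, hS1, hS2⟩ : InIntCone G (fun _ => 2))
    (c' - ∑ i, (2 * r i + 3))
  refine intCone_add G (intCone_add G hR' hC (fun e => rfl)) (odd_part G p hlat) ?_
  intro e
  show p e = ∑ i, (if e ∈ X i then 2 * (q e + (2 * r i + 3) - c') else 2 * (2 * r i + 3)) +
    (c' - ∑ i, (2 * r i + 3)) * 2 + p e % 2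
  have hpe : p e = 2 * q e + p e % 2 := (Nat.div_add_mod (p e) 2).symm
  by_cases h : ∀ i, e ∉ X i
  · have h1 : ∀ i ∈ (univ : Finset (Fin k)), (if e ∈ X i then
        2 * (q e + (2 * r i + 3) - c') else 2 * (2 * r i + 3)) = 2 * (2 * r i + 3) := by
      intro i _
      rw [if_neg (h i)]
    rw [Finset.sum_congr rfl h1, ← Finset.mul_sum]
    have h2 : q e = c' := by
      show p e / 2 = c / 2
      rw [hc e h]
    omega
  · push Not at h
    obtain ⟨i, hi⟩ := h
    have h1 : ∀ j ∈ (univ : Finset (Fin k)), (if e ∈ X j then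
        2 * (q e + (2 * r j + 3) - c') else 2 * (2 * r j + 3)) +
        (if j = i then 2 * c' else 0) = 2 * (2 * r j + 3) + (if j = i then 2 * q e else 0) := by
      intro j _
      by_cases hj : j = i
      · subst hj
        rw [if_pos hi, if_pos rfl, if_pos rfl]
        have h3 := hlow j e hi
        have h4 := (hr j).1
        have h5 : c' ≤ q e + (2 * r j + 3) := by
          show c / 2 ≤ p e / 2 + (2 * r j + 3)
          omega
        omega
      · have h3 : e ∉ X j := fun h3 => Finset.disjoint_left.1 (hdis i j (Ne.symm hj)) hi h3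
        rw [if_neg h3, if_neg hj, if_neg hj]
    have h2 := Finset.sum_congr rfl h1
    rw [Finset.sum_add_distrib, Finset.sum_add_distrib, Finset.sum_ite_eq', Finset.sum_ite_eq',
      ← Finset.mul_sum] at h2
    simp only [Finset.mem_univ, if_true] at h2
    have h6 : 2 * ∑ i, (2 * r i + 3) ≤ 2 * c' := by omega
    omega

end Pool.Agent.K4H75.EC
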