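import Pool.Agent.K4H75.EC.Trees

set_option autoImplicit false
set_option linter.unusedSectionVars false

/-!
The rank conditions.
-/

namespace Pool.Agent.K4H75.EC

open Finset
open Pool.Agent.Helper879.ECD (sp Ind sp_mono mem_sp F2 IsFlow inc fnl fnl_single fnl_inc cn
  f2_add_self exists_coeff)

variable {W E : Type} [Fintype W] [DecidableEq W] [Fintype E] [DecidableEq E]

/-- if every nonempty cut has an edge outside `D`, the edges outside `D` span all edges -/
lemma span_of_cut (a b : E → W) (D : Finset E)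
    (h1 : ∀ X : Finset W, cn a b univ X ≠ 0 → cn a b (univ \ D) X ≠ 0) (e : E) :
    inc a b e ∈ sp F2 (inc a b) (univ \ D) := by
  classical
  by_contra hcon
  have hne := cls_ne hcon
  have h2 : cn a b univ (cls (sp F2 (inc a b) (univ \ D)) (a e)) ≠ 0 := by
    unfold cn
    rw [Finset.card_ne_zero]
    refine ⟨e, ?_⟩
    rw [Finset.mem_filter]
    refine ⟨Finset.mem_univ _, ?_⟩
    intro h2
    exact hne (cls_eq (mem_cls.1 (h2.1 (self_mem_cls _ _))))
  have h3 := h1 _ h2
  unfold cn at h3
  rw [Finset.card_ne_zero] at h3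
  obtain ⟨f, hf⟩ := h3
  rw [Finset.mem_filter] at hf
  have h4 : inc a b f ∈ sp F2 (inc a b) (univ \ D) := mem_sp hf.1
  have h5 : rel (sp F2 (inc a b) (univ \ D)) (a f) (b f) := h4
  apply hf.2
  rw [mem_cls, mem_cls]
  exact ⟨fun h => rel_trans h h5, fun h => rel_trans h (rel_symm h5)⟩

lemma cn_le_univ (a b : E → W) (M : Finset E) (X : Finset W) : cn a b M X ≤ cn a b univ X := by
  unfold cn
  exact Finset.card_le_card (Finset.filter_subset_filter _ (Finset.subset_univ _))

open Classical in
/-- the rank condition for one connected set `C` -/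
lemma rank_one (a b : E → W) (C : Finset E) (e0 : E) (he0 : e0 ∈ C)
    (hconn : ∀ e ∈ C, rel (sp F2 (inc a b) C) (a e) (a e0))
    (h1 : ∀ X : Finset W, cn a b univ X ≠ 0 → cn a b (univ \ C) X ≠ 0)
    (h3 : ∀ X : Finset W, cn a b univ X = 0 ∨ 3 ≤ cn a b univ X)
    (S0 : Submodule F2 (W → F2)) : ∃ T0 T1 : Finset (W → F2),
      (∀ e, e ∉ C → inc a b e ∈ S0 ⊔ Submodule.span F2 (T0 : Set (W → F2))) ∧
      (∀ e, e ∉ C → inc a b e ∈ (S0 ⊔ sp F2 (inc a b) C) ⊔
        Submodule.span F2 (T1 : Set (W → F2))) ∧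
      T0.card + 2 * T1.card ≤ 2 * (univ.filter (fun e => e ∉ C ∧ ¬ inc a b e ∈ S0)).card := by
  classical
  by_cases hemp : parts' a b S0 = ∅
  · have hall : ∀ e, inc a b e ∈ S0 := by
      intro e
      by_contra h
      have := cls_mem_parts' h (Or.inl rfl)
      rw [hemp] at this
      exact absurd this (Finset.notMem_empty _)
    exact ⟨∅, ∅, fun e _ => Submodule.mem_sup_left (hall e),
      fun e _ => Submodule.mem_sup_left (Submodule.mem_sup_left (hall e)), by simp⟩
  obtain ⟨X0, hX0⟩ := Finset.nonempty_iff_ne_empty.2 hemp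
  have hX0p : X0 ∈ parts S0 := (Finset.mem_filter.1 hX0).1
  obtain ⟨c0, _, hc0⟩ := Finset.mem_image.1 hX0p
  obtain ⟨T0, hT0c, hT0⟩ := span_parts_rel a b S0 S0 le_rfl (fun X => X = X0) c0 (by
    intro X _ hX
    refine ⟨c0, ?_, rel_refl _ _⟩
    rw [hX, ← hc0]
    exact self_mem_cls _ _)
  let N : Finset W → Prop := fun X => ∃ w ∈ X, ∃ e ∈ C, w = a e ∨ w = b e
  obtain ⟨T1, hT1c, hT1⟩ := span_parts_rel a b S0 (S0 ⊔ sp F2 (inc a b) C) le_sup_left N (a e0) (by
    rintro X _ ⟨w, hw, e, he, hwe⟩
    refine ⟨w, hw, ?_⟩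
    have h4 : rel (sp F2 (inc a b) C) (a e) (b e) := mem_sp he
    rcases hwe with rfl | rfl
    · exact rel_mono le_sup_right (hconn e he)
    · exact rel_mono le_sup_right (rel_trans (rel_symm h4) (hconn e he)))
  refine ⟨T0, T1, fun e _ => hT0 e, fun e _ => hT1 e, ?_⟩
  have hcount := sum_cn_parts a b S0 (univ \ C)
  have hF : (univ \ C).filter (fun e => ¬ inc a b e ∈ S0) =
      univ.filter (fun e => e ∉ C ∧ ¬ inc a b e ∈ S0) := by
    ext e; simp
  rw [hF] at hcount
  have hle : ∑ X ∈ parts' a b S0, (if N X then 1 else 3) ≤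
      ∑ X ∈ parts S0, cn a b (univ \ C) X := by
    calc ∑ X ∈ parts' a b S0, (if N X then 1 else 3) ≤
        ∑ X ∈ parts' a b S0, cn a b (univ \ C) X := by
          apply Finset.sum_le_sum
          intro X hX
          have hX0 : cn a b univ X ≠ 0 := (Finset.mem_filter.1 hX).2
          by_cases hN : N X
          · rw [if_pos hN]
            exact Nat.one_le_iff_ne_zero.2 (h1 X hX0)
          · rw [if_neg hN]
            have h5 : cn a b (univ \ C) X = cn a b univ X := by
              unfold cn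
              congr 1
              ext e
              simp only [Finset.mem_filter, Finset.mem_sdiff, Finset.mem_univ, true_and]
              constructor
              · exact fun h => h.2
              · intro h
                refine ⟨fun heC => ?_, h⟩
                by_cases haX : a e ∈ X
                · exact hN ⟨a e, haX, e, heC, Or.inl rfl⟩
                · by_cases hbX : b e ∈ X
                  · exact hN ⟨b e, hbX, e, heC, Or.inr rfl⟩
                  · exact h ⟨fun h => absurd h haX, fun h => absurd h hbX⟩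
            rw [h5]
            rcases h3 X with h6 | h6
            · exact absurd h6 hX0
            · exact h6
      _ ≤ _ := Finset.sum_le_sum_of_subset (Finset.filter_subset _ _)
  have hsum : ∑ X ∈ parts' a b S0, (if N X then 1 else 3) =
      (parts' a b S0).card + 2 * ((parts' a b S0).filter (fun X => ¬ N X)).card := by
    rw [Finset.card_filter, Finset.mul_sum, Finset.card_eq_sum_ones, ← Finset.sum_add_distrib]
    apply Finset.sum_congr rfl
    intro X _
    by_cases hN : N X <;> simp [hN]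
  have hT0c' : T0.card ≤ (parts' a b S0).card := le_trans hT0c (Finset.card_filter_le _ _)
  omega

open Classical in
/-- the rank condition with three further sets -/
lemma rank_three (a b : E → W) (D : Finset E)
    (h3 : ∀ X : Finset W, cn a b univ X = 0 ∨ 3 ≤ cn a b univ X)
    (S0 : Submodule F2 (W → F2)) : ∃ T0 T1 : Finset (W → F2),
      (∀ e, e ∉ D → inc a b e ∈ S0 ⊔ Submodule.span F2 (T0 : Set (W → F2))) ∧
      (∀ e, e ∉ D → inc a b e ∈ (S0 ⊔ sp F2 (inc a b) D) ⊔
        Submodule.span F2 (T1 : Set (W → F2))) ∧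
      T0.card + 3 * T1.card ≤ 3 * (univ.filter (fun e => e ∉ D ∧ ¬ inc a b e ∈ S0)).card := by
  classical
  set Q := S0 ⊔ sp F2 (inc a b) D with hQ
  obtain ⟨T1, hT1c, hT1⟩ := span_parts a b Q
  refine ⟨(univ.filter (fun e => e ∉ D ∧ ¬ inc a b e ∈ S0)).image (inc a b), T1, ?_,
    fun e _ => hT1 e, ?_⟩
  · intro e he
    by_cases h : inc a b e ∈ S0
    · exact Submodule.mem_sup_left h
    · apply Submodule.mem_sup_right
      apply Submodule.subset_span
      rw [Finset.mem_coe, Finset.mem_image]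
      exact ⟨e, Finset.mem_filter.2 ⟨Finset.mem_univ _, he, h⟩, rfl⟩
  · have h4 : ((univ.filter (fun e => e ∉ D ∧ ¬ inc a b e ∈ S0)).image (inc a b)).card ≤
      (univ.filter (fun e => e ∉ D ∧ ¬ inc a b e ∈ S0)).card := Finset.card_image_le
    have hcount := sum_cn_parts a b Q univ
    have h5 : (univ.filter (fun e => ¬ inc a b e ∈ Q)).card ≤
        (univ.filter (fun e => e ∉ D ∧ ¬ inc a b e ∈ S0)).card := by
      apply Finset.card_le_card
      intro e he
      rw [Finset.mem_filter] at he ⊢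
      refine ⟨he.1, fun heD => he.2 ?_, fun h => he.2 (Submodule.mem_sup_left h)⟩
      exact Submodule.mem_sup_right (mem_sp heD)
    have h6 : 3 * (parts' a b Q).card ≤ ∑ X ∈ parts Q, cn a b univ X := by
      calc 3 * (parts' a b Q).card ≤ ∑ X ∈ parts' a b Q, cn a b univ X := by
            have := Finset.card_nsmul_le_sum (parts' a b Q) (fun X => cn a b univ X) 3 (by
              intro X hX
              have h2 := (Finset.mem_filter.1 hX).2
              rcases h3 X with h3 | h3
              · exact absurd h3 h2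
              · exact h3)
            rw [smul_eq_mul] at this
            omega
        _ ≤ _ := Finset.sum_le_sum_of_subset (Finset.filter_subset _ _)
    omega

lemma sp_union (a b : E → W) (I J : Finset E) :
    sp F2 (inc a b) (I ∪ J) = sp F2 (inc a b) I ⊔ sp F2 (inc a b) J := by
  unfold sp
  rw [Finset.coe_union, Set.image_union, Submodule.span_union]

/-- the sets for a connected set `C` -/
theorem trees_one (a b : E → W) (C : Finset E) (e0 : E) (he0 : e0 ∈ C)
    (hconn : ∀ e ∈ C, rel (sp F2 (inc a b) C) (a e) (a e0))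
    (h1 : ∀ X : Finset W, cn a b univ X ≠ 0 → cn a b (univ \ C) X ≠ 0)
    (h3 : ∀ X : Finset W, cn a b univ X = 0 ∨ 3 ≤ cn a b univ X) :
    ∃ (J0 : Finset E) (J : Fin 2 → Finset E),
      (∀ e ∈ J0, e ∉ C) ∧
      (∀ e, inc a b e ∈ sp F2 (inc a b) J0) ∧
      (∀ i, ∀ e, inc a b e ∈ sp F2 (inc a b) (J i ∪ C)) ∧
      ∀ e, e ∈ J0 → ∃ i, e ∉ J i := by
  obtain ⟨J0, J, k1, k2, k3, k4, k5⟩ := exists_trees 2 (by norm_num) a b C
    (rank_one a b C e0 he0 hconn h1 h3)
  refine ⟨J0, J, k1, ?_, ?_, k5⟩
  · intro e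
    have h4 : sp F2 (inc a b) (univ \ C) ≤ sp F2 (inc a b) J0 := by
      unfold sp
      rw [Submodule.span_le]
      rintro _ ⟨f, hf, rfl⟩
      exact k3 f (Finset.mem_sdiff.1 (Finset.mem_coe.1 hf)).2
    exact h4 (span_of_cut a b C h1 e)
  · intro i e
    rw [sp_union]
    by_cases he : e ∈ C
    · exact Submodule.mem_sup_right (mem_sp he)
    · exact k4 i e he

/-- the sets for an arbitrary set `D` -/
theorem trees_three (a b : E → W) (D : Finset E)
    (h1 : ∀ X : Finset W, cn a b univ X ≠ 0 → cn a b (univ \ D) X ≠ 0)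
    (h3 : ∀ X : Finset W, cn a b univ X = 0 ∨ 3 ≤ cn a b univ X) :
    ∃ (J0 : Finset E) (J : Fin 3 → Finset E),
      (∀ e ∈ J0, e ∉ D) ∧
      (∀ e, inc a b e ∈ sp F2 (inc a b) J0) ∧
      (∀ i, ∀ e, inc a b e ∈ sp F2 (inc a b) (J i ∪ D)) ∧
      ∀ e, e ∈ J0 → ∃ i, e ∉ J i := by
  obtain ⟨J0, J, k1, k2, k3, k4, k5⟩ := exists_trees 3 (by norm_num) a b D
    (rank_three a b D h3)
  refine ⟨J0, J, k1, ?_, ?_, k5⟩
  · intro e
    have h4 : sp F2 (inc a b) (univ \ D) ≤ sp F2 (inc a b) J0 := by
      unfold sp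
      rw [Submodule.span_le]
      rintro _ ⟨f, hf, rfl⟩
      exact k3 f (Finset.mem_sdiff.1 (Finset.mem_coe.1 hf)).2
    exact h4 (span_of_cut a b D h1 e)
  · intro i e
    rw [sp_union]
    by_cases he : e ∈ D
    · exact Submodule.mem_sup_right (mem_sp he)
    · exact k4 i e he

end Pool.Agent.K4H75.EC
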