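import Pool.Agent.K4H75.EC.Main
import Pool.Agent.H126R2.NC.L3

set_option autoImplicit false
set_option linter.unusedSectionVars false

/-!
Circuit covers of weightings which are constant on a connected spanning set of edges.
-/

namespace Pool.Agent.K4H75.EC

open Finset
open Pool.Agent.Helper879.ECD (F2 IsFlow cn f2_add_self f2_cases)
open Pool.Agent.H126R2.CDC (MGraph isFl_iff)
open Pool.Agent.H126R2.NC (TC InCone InLat InIntCone cone_lat_of_intCone bridgeless_of_cone
  countP_sum cover_minus const_of_tc f2_ne cr Spn Acy exists_base exists_tree_colouring)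
open Pool.Agent.TH399.CC (intCone_add intCone_sum block odd_part)

variable {V E : Type} [Fintype V] [DecidableEq V] [Fintype E] [DecidableEq E]

/-- every nonempty proper set of vertices is left by an edge of `H` -/
def ConnectedOn (G : MGraph V E) (H : Finset E) : Prop :=
  ∀ B : Finset V, B.Nonempty → B ≠ univ →
    ∃ e ∈ H, (∃ x ∈ G.ends e, x ∈ B) ∧ ∃ x ∈ G.ends e, x ∉ B

/-- weights equal to `c` on a connected spanning set of edges, even part -/
theorem cover_tree (G : MGraph V E) (hbr : G.Bridgeless) (v : E × Bool → V)
    (hv : ∀ e, G.ends e = s(v (e, false), v (e, true))) (H : Finset E) (hH : ConnectedOn G H)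
    (c : ℕ) (q : E → ℕ) (hc : ∀ e ∈ H, q e = c)
    (htc : ∀ e, ∀ f ∈ H, TC (fun e => v (e, false)) (fun e => v (e, true)) e f → q e = c)
    (hlow : ∀ e, e ∉ H → 2 * c + 5 ≤ 3 * q e) (hup : ∀ e, e ∉ H → 3 * q e + 14 ≤ 4 * c)
    (hc9 : 9 ≤ c) : InIntCone G (fun e => 2 * q e) := by
  classical
  set a : E → V := fun e => v (e, false) with ha
  set b : E → V := fun e => v (e, true) with hb
  have hspn : Spn a b H := by
    intro X hX e he
    have h1 : X.Nonempty := by
      by_contra h1
      rw [Finset.not_nonempty_iff_eq_empty] at h1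
      apply he
      simp [h1]
    have h2 : X ≠ univ := by
      intro h2
      apply he
      simp [h2]
    obtain ⟨f, hf, hcr⟩ := hH X h1 h2
    exact hX f hf ((cross_iff G v hv X f).1 hcr)
  obtain ⟨T, hTH, hTs, hTa⟩ := exists_base a b H hspn
  obtain ⟨col, hcol⟩ := exists_tree_colouring a b T hTa hTs
  have hno := G.no_one_cut hbr v hv
  -- the edges with a two-cut partner in `H`
  let P : E → Prop := fun e => ∃ f ∈ H, TC a b e f
  have hPH : ∀ e ∈ H, P e := fun e he => ⟨e, he, TC.refl a b e⟩
  have htriv : ∀ e, ¬ P e → ∀ f, TC a b e f → f = e := by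
    intro e he f hef
    by_contra hne
    obtain ⟨z, hz⟩ := id hef
    have hcr : ∀ h, cr a b (univ.filter (fun w => z w = 1)) h ↔ (h = e ∨ h = f) := by
      intro h
      have h1 : cr a b (univ.filter (fun w => z w = 1)) h ↔ z (a h) + z (b h) = 1 := by
        simp only [cr, Finset.mem_filter, Finset.mem_univ, true_and]
        exact f2_ne
      rw [h1, hz h]
      by_cases h2 : h = e
      · have h3 : ¬ h = f := fun h3 => hne (h3.symm.trans h2)
        simp [h2, Ne.symm hne]
      · by_cases h3 : h = f
        · simp [h3, hne]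
        · simp [h2, h3]
    by_contra hcon
    clear hcon
    have h1 : ¬ ∀ t ∈ H, ¬ cr a b (univ.filter (fun w => z w = 1)) t := by
      intro h1
      exact hspn _ h1 e ((hcr e).2 (Or.inl rfl))
    push Not at h1
    obtain ⟨t, ht, htc'⟩ := h1
    have h2 : t = e ∨ t = f := (hcr t).1 (by
      intro h3
      rcases htc' with ⟨h4, h5⟩ | ⟨h4, h5⟩
      · exact h5 (h3.1 h4)
      · exact h4 (h3.2 h5))
    rcases h2 with rfl | rfl
    · exact he (hPH t ht)
    · exact he ⟨t, ht, hef⟩
  -- deletable sets
  have hdel : ∀ (i : Fin 3) (X : Finset E), (∀ e ∈ X, ¬ P e ∧ col e = i) →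
      ∀ B : Finset V, cn a b (univ \ X) B ≠ 1 := by
    intro i X hX B hB
    unfold cn at hB
    obtain ⟨t, ht⟩ := Finset.card_eq_one.1 hB
    have hmem : ∀ e, (e ∉ X ∧ cr a b B e) ↔ e = t := by
      intro e
      have : e ∈ (univ \ X).filter (fun e => ¬ (a e ∈ B ↔ b e ∈ B)) ↔ e ∈ ({t} : Finset E) := by
        rw [ht]
      simpa [cr] using this
    obtain ⟨htX, htB⟩ := (hmem t).2 rfl
    have hXT : ∀ e ∈ T, e ∉ X := by
      intro e he heX
      exact (hX e heX).1 (hPH e (hTH he))
    have htT : t ∈ T := by
      by_contra htT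
      refine hTs B ?_ t htB
      intro e he hc
      have := (hmem e).1 ⟨hXT e he, hc⟩
      exact htT (this ▸ he)
    have hcn : cn a b T B = 1 := by
      unfold cn
      rw [Finset.card_eq_one]
      refine ⟨t, ?_⟩
      ext e
      rw [Finset.mem_filter, Finset.mem_singleton]
      constructor
      · rintro ⟨h1, h2⟩
        exact (hmem e).1 ⟨hXT e h1, h2⟩
      · rintro rfl
        exact ⟨htT, htB⟩
    have h2 : 2 ≤ (univ.filter (fun e => e ∉ T ∧ cr a b B e)).card := by
      by_contra hlt
      rw [not_le] at hlt
      have h01 : (univ.filter (fun e => e ∉ T ∧ cr a b B e)).card = 0 ∨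
          (univ.filter (fun e => e ∉ T ∧ cr a b B e)).card = 1 := by omega
      rcases h01 with h | h
      · -- no further edge: a one-edge cut
        have h3 : (univ.filter (fun e => e ∉ T ∧ cr a b B e)) = ∅ :=
          Finset.card_eq_zero.1 h
        apply hno B
        unfold cn
        rw [Finset.card_eq_one]
        refine ⟨t, ?_⟩
        ext e
        rw [Finset.mem_filter, Finset.mem_singleton]
        constructor
        · rintro ⟨-, h4⟩
          by_cases heT : e ∈ T
          · exact (hmem e).1 ⟨hXT e heT, h4⟩
          · have : e ∈ (univ.filter (fun e => e ∉ T ∧ cr a b B e)) :=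
              Finset.mem_filter.2 ⟨Finset.mem_univ _, heT, h4⟩
            rw [h3] at this
            exact absurd this (Finset.notMem_empty _)
        · rintro rfl
          exact ⟨Finset.mem_univ _, htB⟩
      · -- a two-edge cut
        obtain ⟨e, he⟩ := Finset.card_eq_one.1 h
        have h3 : e ∉ T ∧ cr a b B e := by
          have : e ∈ (univ.filter (fun e => e ∉ T ∧ cr a b B e)) := by
            rw [he]; exact Finset.mem_singleton_self e
          exact (Finset.mem_filter.1 this).2
        have h4 : ∀ f, cr a b B f ↔ (f = e ∨ f = t) := by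
          intro f
          constructor
          · intro hf
            by_cases hfT : f ∈ T
            · right; exact (hmem f).1 ⟨hXT f hfT, hf⟩
            · left
              have : f ∈ (univ.filter (fun e => e ∉ T ∧ cr a b B e)) :=
                Finset.mem_filter.2 ⟨Finset.mem_univ _, hfT, hf⟩
              rw [he] at this
              exact Finset.mem_singleton.1 this
          · rintro (rfl | rfl)
            · exact h3.2
            · exact htB
        have hne : e ≠ t := fun h5 => h3.1 (h5 ▸ htT)
        have heX : e ∈ X := by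
          by_contra h5
          exact hne ((hmem e).1 ⟨h5, h3.2⟩)
        apply (hX e heX).1
        refine ⟨t, hTH htT, ?_⟩
        refine ⟨fun w => if w ∈ B then 1 else 0, fun h => ?_⟩
        rw [Pool.Agent.H126R2.NC.ind_cr]
        by_cases h5 : h = e
        · have h6 : h ≠ t := fun h7 => hne (h5.symm.trans h7)
          rw [if_pos ((h4 h).2 (Or.inl h5)), if_pos h5, if_neg h6, add_zero]
        · by_cases h6 : h = t
          · rw [if_pos ((h4 h).2 (Or.inr h6)), if_neg h5, if_pos h6, zero_add]
          · rw [if_neg (fun h7 => ((h4 h).1 h7).elim h5 h6), if_neg h5, if_neg h6, add_zero]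
    obtain ⟨e, e', he1, he2, he'1, he'2, hne⟩ := hcol B hcn h2
    have key : ∀ e, e ∉ T → cr a b B e → col e = i := by
      intro e h1 h2
      have h3 : e ∈ X := by
        by_contra h4
        exact h1 (((hmem e).1 ⟨h4, h2⟩) ▸ htT)
      exact (hX e h3).2
    exact hne ((key e he1 he2).trans (key e' he'1 he'2).symm)
  obtain ⟨r, s, hs, hrs⟩ : ∃ r s : ℕ, s < 6 ∧ c = 6 * r + 9 + s :=
    ⟨(c - 9) / 6, (c - 9) % 6, Nat.mod_lt _ (by norm_num), by omega⟩
  set μ := 4 * r + 6 + s with hμ
  let u : E → ℕ := fun e => (q e - μ) / 4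
  let w : E → ℕ := fun e => (q e - μ) % 4
  have hqc : ∀ e, P e → q e = c := by
    rintro e ⟨f, hf, hef⟩
    exact htc e f hf hef
  have hPn : ∀ e, ¬ P e → e ∉ H := fun e he h => he (hPH e h)
  have hu : ∀ e, ¬ P e → u e ≤ r := by
    intro e he
    have h1 := hup e (hPn e he)
    show (q e - μ) / 4 ≤ r
    omega
  have hw : ∀ e, w e ≤ 3 := fun e => by
    show (q e - μ) % 4 ≤ 3
    omega
  have hq : ∀ e, ¬ P e → q e = μ + 4 * u e + w e := by
    intro e he
    have h2 := hlow e (hPn e he)
    show q e = μ + 4 * ((q e - μ) / 4) + (q e - μ) % 4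
    omega
  -- the rounds with eight shifted even sets
  have hA : ∀ (t : ℕ) (i : Fin 3), InIntCone G (fun e =>
      if ¬ P e ∧ col e = i then (if t < u e then 8 else 0) else 4) := by
    intro t i
    obtain ⟨S, hS1, hS2⟩ := block G v hv (univ.filter (fun e => ¬ P e ∧ col e = i))
      (univ.filter (fun e => ¬ P e ∧ t < u e)) (by
        intro e he f hef
        rw [Finset.mem_filter] at he
        rw [htriv e he.2.1 f hef]
        exact Finset.mem_filter.2 he) (by
        intro e he f hef
        rw [Finset.mem_filter] at he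
        rw [htriv e he.2.1 f hef]
        exact Finset.mem_filter.2 he) (by
        intro X' hX' _ B
        exact hdel i X' (fun e he => (Finset.mem_filter.1 (hX' he)).2) B)
    refine ⟨S, hS1, fun e => ?_⟩
    rw [hS2 e]
    simp only [Finset.mem_filter, Finset.mem_univ, true_and]
    by_cases h : P e
    · simp [h]
    · simp [h]
  -- the rounds with double covers
  have hB : ∀ (t : ℕ) (i : Fin 3), InIntCone G (fun e =>
      if ¬ P e ∧ col e = i then (if t < w e then 2 else 0) else 2) := by
    intro t i
    obtain ⟨S, hS1, hS2⟩ := cover_minus G v hv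
      (univ.filter (fun e => (¬ P e ∧ col e = i) ∧ ¬ t < w e))
      (hdel i _ (fun e he => (Finset.mem_filter.1 he).2.1))
    refine ⟨S, hS1, fun e => ?_⟩
    rw [hS2 e]
    simp only [Finset.mem_filter, Finset.mem_univ, true_and]
    by_cases h1 : ¬ P e ∧ col e = i
    · by_cases h2 : t < w e <;> simp [h1, h2]
    · simp only [h1, false_and, if_false]
  have hC : InIntCone G (fun _ => s * 2) := by
    obtain ⟨S, hS1, hS2⟩ := G.exists_cdc hbr
    exact intCone_smul G (⟨S, hS1, hS2⟩ : InIntCone G (fun _ => 2)) s
  have hsum : ∀ (e : E) (k m : ℕ), ¬ P e → ∑ i : Fin 3,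
      (if ¬ P e ∧ col e = i then m else k) = 2 * k + m := by
    intro e k m he
    have h1 : ∀ i ∈ (univ : Finset (Fin 3)), (if ¬ P e ∧ col e = i then m else k) +
        (if col e = i then k else 0) = k + (if col e = i then m else 0) := by
      intro i _
      by_cases h : col e = i <;> simp [he, h, add_comm]
    have h2 := Finset.sum_congr rfl h1
    rw [Finset.sum_add_distrib, Finset.sum_add_distrib, Finset.sum_ite_eq, Finset.sum_ite_eq] at h2
    simp only [Finset.mem_univ, if_true, Finset.sum_const, Finset.card_univ, Fintype.card_fin,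
      smul_eq_mul] at h2
    omega
  have hsumP : ∀ (e : E) (k m : ℕ), P e → ∑ i : Fin 3,
      (if ¬ P e ∧ col e = i then m else k) = 3 * k := by
    intro e k m he
    simp [he]
  have hcnt : ∀ (n m k : ℕ), k ≤ n → ∑ t ∈ Finset.range n, (if t < k then m else 0) = m * k := by
    intro n m k hk
    rw [← Finset.sum_filter, Finset.sum_const, smul_eq_mul, mul_comm]
    congr 1
    have h7 : (Finset.range n).filter (fun t => t < k) = Finset.range k := by
      ext t
      rw [Finset.mem_filter, Finset.mem_range, Finset.mem_range]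
      omega
    rw [h7, Finset.card_range]
  have hA' := intCone_sum G (Finset.range r) _ (fun t _ =>
    intCone_sum G (univ : Finset (Fin 3)) _ (fun i _ => hA t i))
  have hB' := intCone_sum G (Finset.range 3) _ (fun t _ =>
    intCone_sum G (univ : Finset (Fin 3)) _ (fun i _ => hB t i))
  refine intCone_add G (intCone_add G hA' hB' (fun e => rfl)) hC ?_
  intro e
  show 2 * q e = ∑ t ∈ Finset.range r, ∑ i : Fin 3,
      (if ¬ P e ∧ col e = i then (if t < u e then 8 else 0) else 4) +
    ∑ t ∈ Finset.range 3, ∑ i : Fin 3,
      (if ¬ P e ∧ col e = i then (if t < w e then 2 else 0) else 2) + s * 2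
  by_cases he : P e
  · rw [Finset.sum_congr rfl (fun t _ => hsumP e 4 (if t < u e then 8 else 0) he),
      Finset.sum_congr rfl (fun t _ => hsumP e 2 (if t < w e then 2 else 0) he),
      Finset.sum_const, Finset.sum_const, Finset.card_range, Finset.card_range, hqc e he]
    simp only [smul_eq_mul]
    omega
  · rw [Finset.sum_congr rfl (fun t _ => hsum e 4 (if t < u e then 8 else 0) he),
      Finset.sum_congr rfl (fun t _ => hsum e 2 (if t < w e then 2 else 0) he),
      Finset.sum_add_distrib, Finset.sum_add_distrib, hcnt r 8 (u e) (hu e he),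
      hcnt 3 2 (w e) (hw e), Finset.sum_const, Finset.sum_const, Finset.card_range,
      Finset.card_range]
    simp only [smul_eq_mul]
    have h1 := hq e he
    omega

lemma even_tc (G : MGraph V E) (v : E × Bool → V)
    (hv : ∀ e, G.ends e = s(v (e, false), v (e, true))) {D : Finset E} (hD : G.IsEven D)
    {e f : E} (h : TC (fun e => v (e, false)) (fun e => v (e, true)) e f) : e ∈ D ↔ f ∈ D := by
  obtain ⟨z, hz⟩ := h
  have h1 := (isFl_iff v _).1 ((G.isEven_iff v hv D).1 hD) z
  have h2 : ∀ h ∈ (univ : Finset E), (if h ∈ D then (1 : F2) else 0) *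
      (z (v (h, false)) + z (v (h, true))) =
      (if h = e then (if e ∈ D then 1 else 0) else 0) +
      (if h = f then (if f ∈ D then 1 else 0) else 0) := by
    intro h _
    rw [hz h, mul_add]
    congr 1
    · by_cases h3 : h = e
      · rw [h3]; simp
      · simp [h3]
    · by_cases h3 : h = f
      · rw [h3]; simp
      · simp [h3]
  rw [Finset.sum_congr rfl h2, Finset.sum_add_distrib, Finset.sum_ite_eq', Finset.sum_ite_eq'] at h1
  simp only [Finset.mem_univ, if_true] at h1
  by_cases he : e ∈ D <;> by_cases hf : f ∈ D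
  · exact ⟨fun _ => hf, fun _ => he⟩
  · rw [if_pos he, if_neg hf, add_zero] at h1; exact absurd h1 one_ne_zero
  · rw [if_neg he, if_pos hf, zero_add] at h1; exact absurd h1 one_ne_zero
  · exact ⟨fun h => absurd h he, fun h => absurd h hf⟩

/-- circuit covers of weightings which are constant on a connected spanning set of edges -/
theorem tree_constant (G : MGraph V E) (H : Finset E) (hH : ConnectedOn G H) (D : Finset E)
    (hD : G.IsEven D) (hDH : ∀ e ∈ H, e ∉ D) (m c : ℕ) (p : E → ℕ) (hc : ∀ e ∈ H, p e = c)
    (hlow : ∀ e, e ∉ H → 2 * c + 13 + 3 * (m * if e ∈ D then 1 else 0) ≤ 3 * p e)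
    (hup : ∀ e, e ∉ H → 3 * p e + 32 ≤ 4 * c + 3 * (m * if e ∈ D then 1 else 0)) :
    InIntCone G p ↔ InCone G p ∧ InLat G p := by
  classical
  refine ⟨cone_lat_of_intCone G p, ?_⟩
  rintro ⟨hcone, hlat⟩
  obtain ⟨v, hv⟩ := G.exists_halves
  by_cases hall : ∀ e, e ∈ H
  · rcases Nat.eq_zero_or_pos c with h0 | hpos
    · refine ⟨0, by simp, fun e => ?_⟩
      rw [hc e (hall e), h0]
      simp
    · have hbr := bridgeless_of_cone G p hcone (fun e => by rw [hc e (hall e)]; exact hpos)
      obtain ⟨S, hS1, hS2⟩ := G.exists_cdc hbr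
      refine intCone_add G (intCone_smul G (⟨S, hS1, hS2⟩ : InIntCone G (fun _ => 2)) (c / 2))
        (odd_part G p hlat) ?_
      intro e
      rw [hc e (hall e)]
      omega
  · push Not at hall
    obtain ⟨e0, he0⟩ := hall
    have hc23 : 23 ≤ c := by
      have h1 := hlow e0 he0
      have h2 := hup e0 he0
      omega
    let χ : E → ℕ := fun e => m * if e ∈ D then 1 else 0
    have hχH : ∀ e ∈ H, χ e = 0 := fun e he => by
      show m * (if e ∈ D then 1 else 0) = 0
      rw [if_neg (hDH e he), mul_zero]
    have hχp : ∀ e, χ e ≤ p e := by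
      intro e
      by_cases he : e ∈ H
      · rw [hχH e he]; exact Nat.zero_le _
      · have h1 := hlow e he
        have h2 : χ e = m * if e ∈ D then 1 else 0 := rfl
        omega
    let p' : E → ℕ := fun e => p e - χ e
    have hp' : ∀ e, p e = p' e + χ e := fun e => by
      have := hχp e
      show p e = p e - χ e + χ e
      omega
    have hpos : ∀ e, 0 < p e := by
      intro e
      by_cases he : e ∈ H
      · rw [hc e he]; omega
      · have h1 := hlow e he
        omega
    have hbr := bridgeless_of_cone G p hcone hpos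
    have hχcone : InIntCone G χ := intCone_smul G (intCone_even G D hD) m
    have hlat' : InLat G p' := by
      have h1 := (cone_lat_of_intCone G χ hχcone).2
      unfold InLat at h1 hlat ⊢
      have h2 := AddSubgroup.sub_mem _ hlat h1
      have h3 : (fun e => ((p' e : ℕ) : ℤ)) =
          (fun e => ((p e : ℕ) : ℤ)) - (fun e => ((χ e : ℕ) : ℤ)) := by
        ext e
        rw [Pi.sub_apply, hp' e]
        push_cast
        ring
      rw [h3]
      exact h2
    have hT := cover_tree G hbr v hv H hH (c / 2) (fun e => p' e / 2)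
      (by
        intro e he
        show p' e / 2 = c / 2
        have h1 := hp' e
        rw [hχH e he, add_zero, hc e he] at h1
        rw [← h1])
      (by
        intro e f hf hef
        have h1 := const_of_tc G v hv p hcone hef
        have h2 := (even_tc G v hv hD hef).1.mt (hDH f hf)
        have h3 : χ e = 0 := by
          show m * (if e ∈ D then 1 else 0) = 0
          rw [if_neg h2, mul_zero]
        have h4 := hp' e
        rw [h3, add_zero, h1, hc f hf] at h4
        show p' e / 2 = c / 2
        rw [← h4])
      (by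
        intro e he
        have h1 := hlow e he
        have h2 := hp' e
        have h3 : χ e = m * if e ∈ D then 1 else 0 := rfl
        show 2 * (c / 2) + 5 ≤ 3 * (p' e / 2)
        omega)
      (by
        intro e he
        have h1 := hup e he
        have h2 := hp' e
        have h3 : χ e = m * if e ∈ D then 1 else 0 := rfl
        show 3 * (p' e / 2) + 14 ≤ 4 * (c / 2)
        omega)
      (by omega)
    refine intCone_add G (intCone_add G hT (odd_part G p' hlat') (fun e => rfl)) hχcone ?_
    intro e
    rw [hp' e]
    omega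

end Pool.Agent.K4H75.EC
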