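import Pool.Agent.K4H75.EC.Cls

set_option autoImplicit false
set_option linter.unusedSectionVars false

/-!
A spanning set of edges outside `D` and `k` sets which span together with `D`, without a common
edge.
-/

namespace Pool.Agent.K4H75.EC

open Finset
open Pool.Agent.Helper879.ECD (sp Ind sp_mono mem_sp F2 IsFlow inc fnl fnl_single fnl_inc cn
  f2_add_self exists_coeff)

variable {W E : Type} [Fintype W] [DecidableEq W] [Fintype E] [DecidableEq E]

lemma finrank_sup_span_le {U : Type} [AddCommGroup U] [Module F2 U] [FiniteDimensional F2 U]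
    (A B S : Submodule F2 U) (T : Finset U) (h : A ≤ B ⊔ S) (hS : S ≤ Submodule.span F2 (T : Set U)) :
    Module.finrank F2 A ≤ Module.finrank F2 B + T.card := by
  have h1 := Submodule.finrank_mono h
  have h2 := Submodule.finrank_add_le_finrank_add_finrank B S
  have h3 := Submodule.finrank_mono hS
  have h4 : Module.finrank F2 (Submodule.span F2 (T : Set U)) ≤ T.card :=
    finrank_span_finset_le_card T
  omega

open Classical in
theorem exists_trees (k : ℕ) (hk : 0 < k) (a b : E → W) (D : Finset E)
    (h : ∀ S0 : Submodule F2 (W → F2), ∃ T0 T1 : Finset (W → F2),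
      (∀ e, e ∉ D → inc a b e ∈ S0 ⊔ Submodule.span F2 (T0 : Set (W → F2))) ∧
      (∀ e, e ∉ D → inc a b e ∈ (S0 ⊔ sp F2 (inc a b) D) ⊔
        Submodule.span F2 (T1 : Set (W → F2))) ∧
      T0.card + k * T1.card ≤ k * (univ.filter (fun e => e ∉ D ∧ ¬ inc a b e ∈ S0)).card) :
    ∃ (J0 : Finset E) (J : Fin k → Finset E),
      (∀ e ∈ J0, e ∉ D) ∧ (∀ i, ∀ e ∈ J i, e ∉ D) ∧
      (∀ e, e ∉ D → inc a b e ∈ sp F2 (inc a b) J0) ∧
      (∀ i, ∀ e, e ∉ D → inc a b e ∈ sp F2 (inc a b) (J i) ⊔ sp F2 (inc a b) D) ∧
      ∀ e, e ∈ J0 → ∃ i, e ∉ J i := by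
  set P := sp F2 (inc a b) D with hP
  let Q : Option (Fin k) → Submodule F2 (W → F2) := fun i => match i with
    | none => ⊥
    | some _ => P
  let x : ∀ i : Option (Fin k), E × Fin k → (W → F2) ⧸ Q i :=
    fun i p => if p.1 ∈ D then 0 else (Q i).mkQ (inc a b p.1)
  let JR : Finset (E × Fin k) → Finset E := fun R =>
    univ.filter (fun e => e ∉ D ∧ ∃ j, (e, j) ∈ R)
  have hsp : ∀ i R, sp F2 (x i) R = (sp F2 (inc a b) (JR R)).map (Q i).mkQ := by
    intro i R
    apply le_antisymm
    · unfold sp
      rw [Submodule.span_le]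
      rintro _ ⟨p, hp, rfl⟩
      by_cases hpD : p.1 ∈ D
      · have : x i p = 0 := by simp only [x]; rw [if_pos hpD]
        rw [this]
        exact Submodule.zero_mem _
      · have : x i p = (Q i).mkQ (inc a b p.1) := by simp only [x]; rw [if_neg hpD]
        rw [this]
        apply Submodule.mem_map_of_mem
        apply Submodule.subset_span
        refine ⟨p.1, ?_, rfl⟩
        rw [Finset.mem_coe, Finset.mem_filter]
        exact ⟨Finset.mem_univ _, hpD, p.2, Finset.mem_coe.1 hp⟩
    · unfold sp
      rw [Submodule.map_span, Submodule.span_le]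
      rintro _ ⟨_, ⟨e, he, rfl⟩, rfl⟩
      rw [Finset.mem_coe, Finset.mem_filter] at he
      obtain ⟨_, heD, j, hj⟩ := he
      apply Submodule.subset_span
      refine ⟨(e, j), Finset.mem_coe.2 hj, ?_⟩
      simp only [x]
      rw [if_neg heD]
  have huniv : ∀ i (B : Submodule F2 (W → F2)), (∀ e, e ∉ D → inc a b e ∈ B) →
      sp F2 (x i) univ ≤ B.map (Q i).mkQ := by
    intro i B hB
    rw [hsp]
    apply Submodule.map_mono
    unfold sp
    rw [Submodule.span_le]
    rintro _ ⟨e, he, rfl⟩
    rw [Finset.mem_coe, Finset.mem_filter] at he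
    exact hB e he.2.1
  have hmapT : ∀ i (T : Finset (W → F2)),
      (Submodule.span F2 (T : Set (W → F2))).map (Q i).mkQ ≤
        Submodule.span F2 ((T.image (Q i).mkQ : Finset ((W → F2) ⧸ Q i)) :
          Set ((W → F2) ⧸ Q i)) := by
    intro i T
    rw [Submodule.map_span, Finset.coe_image]
  have hH : ∀ R : Finset (E × Fin k), ∑ i, Module.finrank F2 (sp F2 (x i) univ) ≤
      ∑ i, Module.finrank F2 (sp F2 (x i) R) + (univ \ R).card := by
    intro R
    obtain ⟨T0, T1, hT0, hT1, hcard⟩ := h (sp F2 (inc a b) (JR R))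
    have h0 : Module.finrank F2 (sp F2 (x none) univ) ≤
        Module.finrank F2 (sp F2 (x none) R) + T0.card := by
      have h1 := huniv none _ hT0
      rw [Submodule.map_sup, ← hsp none R] at h1
      have h2 := finrank_sup_span_le _ _ _ _ h1 (hmapT none T0)
      have h3 : (T0.image (Q none).mkQ).card ≤ T0.card := Finset.card_image_le
      omega
    have h1 : ∀ i : Fin k, Module.finrank F2 (sp F2 (x (some i)) univ) ≤
        Module.finrank F2 (sp F2 (x (some i)) R) + T1.card := by
      intro i
      have h1 := huniv (some i) _ hT1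
      have h4 : P.map (Q (some i)).mkQ = ⊥ := Submodule.mkQ_map_self P
      rw [Submodule.map_sup, Submodule.map_sup, ← hsp (some i) R, h4, sup_bot_eq] at h1
      have h2 := finrank_sup_span_le _ _ _ _ h1 (hmapT (some i) T1)
      have h3 : (T1.image (Q (some i)).mkQ).card ≤ T1.card := Finset.card_image_le
      omega
    have h2 : k * (univ.filter (fun e => e ∉ D ∧ ¬ inc a b e ∈ sp F2 (inc a b) (JR R))).card ≤
        (univ \ R).card := by
      have h3 : ((univ.filter (fun e => e ∉ D ∧ ¬ inc a b e ∈ sp F2 (inc a b) (JR R))) ×ˢ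
          (univ : Finset (Fin k))).card ≤ (univ \ R).card := by
        apply Finset.card_le_card
        intro p hp
        rw [Finset.mem_product, Finset.mem_filter] at hp
        rw [Finset.mem_sdiff]
        refine ⟨Finset.mem_univ _, fun hpR => ?_⟩
        apply hp.1.2.2
        apply mem_sp
        rw [Finset.mem_filter]
        exact ⟨Finset.mem_univ _, hp.1.2.1, p.2, hpR⟩
      rw [Finset.card_product, Finset.card_univ, Fintype.card_fin, mul_comm] at h3
      exact h3
    rw [Fintype.sum_option, Fintype.sum_option]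
    have h3 : ∑ i : Fin k, Module.finrank F2 (sp F2 (x (some i)) univ) ≤
        ∑ i : Fin k, (Module.finrank F2 (sp F2 (x (some i)) R) + T1.card) :=
      Finset.sum_le_sum (fun i _ => h1 i)
    rw [Finset.sum_add_distrib, Finset.sum_const, Finset.card_univ, Fintype.card_fin,
      smul_eq_mul] at h3
    omega
  obtain ⟨I, hd, hI⟩ := packG (K := Option (Fin k)) (F := F2) (x := x) hH
  have hspan : ∀ i, ∀ e, e ∉ D → inc a b e ∈ sp F2 (inc a b) (JR (I i)) ⊔ Q i := by
    intro i e he
    have h1 : x i (e, ⟨0, hk⟩) ∈ sp F2 (x i) univ := mem_sp (Finset.mem_univ _)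
    rw [← hI i, hsp] at h1
    have h2 : x i (e, ⟨0, hk⟩) = (Q i).mkQ (inc a b e) := by
      simp only [x]
      rw [if_neg he]
    rw [h2] at h1
    have h3 : inc a b e ∈ ((sp F2 (inc a b) (JR (I i))).map (Q i).mkQ).comap (Q i).mkQ := h1
    rw [Submodule.comap_map_mkQ, sup_comm] at h3
    exact h3
  refine ⟨JR (I none), fun i => JR (I (some i)), ?_, ?_, ?_, ?_, ?_⟩
  · intro e he
    exact (Finset.mem_filter.1 he).2.1
  · intro i e he
    exact (Finset.mem_filter.1 he).2.1
  · intro e he
    have h1 := hspan none e he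
    simpa [Q] using h1
  · intro i e he
    exact hspan (some i) e he
  · intro e he
    by_contra hcon
    push Not at hcon
    have hall : ∀ i : Option (Fin k), ∃ j, (e, j) ∈ I i := by
      intro i
      cases i with
      | none => exact (Finset.mem_filter.1 he).2.2
      | some i => exact (Finset.mem_filter.1 (hcon i)).2.2
    choose j hj using hall
    obtain ⟨i1, i2, hne, heq⟩ := Fintype.exists_ne_map_eq_of_card_lt j (by simp)
    have h1 := hj i1
    have h2 := hj i2
    rw [heq] at h1
    exact Finset.disjoint_left.1 (hd i1 i2 hne) h1 h2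

/-- a flow with prescribed values outside `J` -/
lemma flow_ext (a b : E → W) (J : Finset E) (β : E → F2)
    (h : ∀ e, e ∉ J → inc a b e ∈ sp F2 (inc a b) J) :
    ∃ ψ : E → F2, IsFlow a b ψ ∧ ∀ e, e ∉ J → ψ e = β e := by
  classical
  have hτ : ∑ e ∈ univ.filter (fun e => e ∉ J), β e • inc a b e ∈ sp F2 (inc a b) J :=
    Submodule.sum_mem _ (fun e he => Submodule.smul_mem _ _ (h e (Finset.mem_filter.1 he).2))
  obtain ⟨c, hc⟩ := exists_coeff hτ
  refine ⟨fun e => if e ∈ J then c e else β e, ?_, fun e he => if_neg he⟩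
  intro d
  have h1 : ∑ e, (if e ∈ J then c e else β e) • inc a b e = 0 := by
    have h2 : ∀ e ∈ (univ : Finset E), (if e ∈ J then c e else β e) • inc a b e =
        (if e ∈ J then c e • inc a b e else 0) + (if e ∉ J then β e • inc a b e else 0) := by
      intro e _
      by_cases he : e ∈ J <;> simp [he]
    rw [Finset.sum_congr rfl h2, Finset.sum_add_distrib, ← Finset.sum_filter,
      ← Finset.sum_filter, Finset.filter_mem_eq_inter, Finset.univ_inter, hc]
    exact vself _
  have h2 := congrArg (fnl d) h1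
  rw [map_sum, map_zero] at h2
  refine Eq.trans ?_ h2
  apply Finset.sum_congr rfl
  intro e _
  rw [map_smul, fnl_inc, smul_eq_mul]

end Pool.Agent.K4H75.EC
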